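import Pool.Agent.Lib.MP_305fdd_al.Reg.Two

/-!
# MP_305fdd_al: the classes of the hyperbolic once-punctured torus bundles are positive
-/

set_option autoImplicit false

namespace Pool.Agent.MP_305fdd_al.Reg

open Pool.Agent.F8.BG Pool.Agent.Lib.MP_305fdd_al Pool.Agent.F8 Pool.Agent.F8.CG
open Pool.Agent.F2X (AM)

theorem b_emb {ι : Type} (α : MulAut (FreeGroup ι)) (k : ℕ) (f : FreeGroup ι) (j : ℤ) :
    emb α k (iR (α ^ k) f * tR (α ^ k) ^ j) = iR α f * tR α ^ ((k : ℤ) * j) := by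
  rw [map_mul, map_zpow, emb_iR, emb_tR, ← zpow_natCast, ← zpow_mul]

theorem b_nR {ι : Type} (α : MulAut (FreeGroup ι)) (k : ℕ) (g : GR (α ^ k)) :
    nR α (emb α k g) = nR (α ^ k) g ^ k := by
  obtain ⟨f, j, rfl⟩ := GR_cases (α ^ k) g
  rw [b_emb, nR_eq, nR_eq, ← ofAdd_nsmul, nsmul_eq_mul]

theorem b_inj {ι : Type} (α : MulAut (FreeGroup ι)) (k : ℕ) (hk : 1 ≤ k) :
    Function.Injective (emb α k) := by
  rw [injective_iff_map_eq_one]
  intro g hg
  obtain ⟨f, j, rfl⟩ := GR_cases (α ^ k) g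
  rw [b_emb] at hg
  have h1 : nR α (iR α f * tR α ^ ((k : ℤ) * j)) = 1 := by rw [hg, map_one]
  rw [nR_eq] at h1
  have h2 : (k : ℤ) * j = 0 := Multiplicative.ofAdd.injective h1
  have h3 : j = 0 := by
    rcases mul_eq_zero.1 h2 with h | h
    · exfalso
      have : (k : ℤ) ≠ 0 := by
        have : (1 : ℤ) ≤ k := by exact_mod_cast hk
        omega
      exact this h
    · exact h
  subst h3
  rw [mul_zero, zpow_zero, mul_one] at hg
  have h4 : f = 1 := iR_injective α (by rw [hg, map_one])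
  rw [h4, map_one, zpow_zero, mul_one]

theorem b_surj {ι : Type} (α : MulAut (FreeGroup ι)) (k : ℕ) (g : GR α)
    (hg : redZ k (nR α g) = 1) : ∃ g' : GR (α ^ k), emb α k g' = g := by
  obtain ⟨f, n, rfl⟩ := GR_cases α g
  rw [nR_eq, redZ_ofAdd] at hg
  have h1 : ((n : ℤ) : ZMod k) = 0 := Multiplicative.ofAdd.injective hg
  obtain ⟨j, hj⟩ := (ZMod.intCast_zmod_eq_zero_iff_dvd n k).1 h1
  exact ⟨iR (α ^ k) f * tR (α ^ k) ^ j, by rw [b_emb, hj]⟩

theorem b_fin {ι : Type} (α : MulAut (FreeGroup ι)) (k : ℕ) [NeZero k] :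
    (emb α k).range.FiniteIndex := by
  have h1 : ((redZ k).comp (nR α)).ker.FiniteIndex := Subgroup.finiteIndex_ker _
  refine Subgroup.finiteIndex_of_le (H := ((redZ k).comp (nR α)).ker) ?_
  intro g hg
  exact b_surj α k g hg

/-- every matrix of determinant one and trace greater than two is conjugate to a positive product -/
def PosConj : Prop := ∀ A : Matrix (Fin 2) (Fin 2) ℤ, A.det = 1 → 2 < A.trace →
  ∃ (X Y : Matrix (Fin 2) (Fin 2) ℤ) (l : List Bool), X * Y = 1 ∧ true ∈ l ∧ false ∈ l ∧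
    X * A = (l.map fun s =>
      if s then (!![1, 1; 0, 1] : Matrix (Fin 2) (Fin 2) ℤ) else !![1, 0; 1, 1]).prod * X

theorem bundle (hpc : PosConj) (β : MulAut (FreeGroup (Fin 2)))
    (h : 2 < ((AM β).val ^ 2).trace) : PosCls (nR β) := by
  -- the matrix of the square
  have hAv : (AM (β ^ 2)).val = (AM β).val ^ 2 := by
    rw [map_pow]; rfl
  have hdu : IsUnit (AM β).val.det := (Matrix.isUnit_iff_isUnit_det _).1 (AM β).isUnit
  have hdet : ((AM β).val ^ 2).det = 1 := by
    rw [Matrix.det_pow]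
    rcases Int.isUnit_iff.1 hdu with h1 | h1 <;> rw [h1] <;> norm_num
  obtain ⟨X, Y, l, hXY, ht, hf, hXA⟩ := hpc _ hdet h
  have hYX : Y * X = 1 := mul_eq_one_comm.1 hXY
  let XU : GL (Fin 2) ℤ := ⟨X, Y, hXY, hYX⟩
  -- the isomorphism
  have hX1 : XU * AM (β ^ 2) = AM (au l) * XU := by
    apply Units.ext
    show X * (AM (β ^ 2)).val = (AM (au l)).val * X
    rw [hAv, AM_au]
    exact hXA
  obtain ⟨e₁⟩ := Pool.Agent.LF.p_E3 (au l) (β ^ 2) XU hX1
  -- the first Betti number
  have hd1 : (((AM β).val ^ 2) - 1).det ≠ 0 := by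
    have h2 : (((AM β).val ^ 2) - 1).det =
        ((AM β).val ^ 2).det - ((AM β).val ^ 2).trace + 1 := by
      generalize (AM β).val ^ 2 = M
      rw [Matrix.det_fin_two, Matrix.det_fin_two, Matrix.trace_fin_two]
      simp only [Matrix.sub_apply, Matrix.one_apply_eq, ne_eq, zero_ne_one, not_false_eq_true,
        Matrix.one_apply_ne, one_ne_zero, sub_zero]
      ring
    rw [h2, hdet]
    omega
  have hd2 : ((AM (au l)).val - 1).det ≠ 0 := by
    intro h0
    have h3 : X * (((AM β).val ^ 2) - 1) = ((AM (au l)).val - 1) * X := by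
      rw [mul_sub, sub_mul, mul_one, one_mul, AM_au, hXA]
    have h4 := congrArg Matrix.det h3
    rw [Matrix.det_mul, Matrix.det_mul, h0, zero_mul] at h4
    rcases mul_eq_zero.1 h4 with h5 | h5
    · have h6 := congrArg Matrix.det hXY
      rw [Matrix.det_mul, h5, zero_mul, Matrix.det_one] at h6
      exact absurd h6 (by norm_num)
    · exact hd1 h5
  -- the class of `β ^ 2` in terms of the class of `au l`
  let f : GR (au l) →* Multiplicative ℤ := (nR (β ^ 2)).comp e₁.symm.toMonoidHom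
  have hker := Pool.Agent.LF.p_E6 (au l) hd2 f
  have hfk : ∀ g : GR (au l), f g = (nR (au l) g) ^ (Multiplicative.toAdd (f (tR (au l)))) := by
    intro g
    obtain ⟨w, n, rfl⟩ := GR_cases (au l) g
    have h5 : f (iR (au l) w) = 1 := by
      have : iR (au l) w ∈ (nR (au l)).ker := nR_iR (au l) w
      exact hker this
    rw [map_mul, h5, one_mul, map_zpow, nR_eq]
    apply Multiplicative.toAdd.injective
    rw [toAdd_zpow, toAdd_zpow, toAdd_ofAdd, smul_eq_mul, smul_eq_mul, mul_comm]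
  -- the subgroup
  let ε : GR (β ^ 2) ≃* (emb β 2).range := MonoidHom.ofInjective (b_inj β 2 (by norm_num))
  let e : (emb β 2).range →* GR (au l) := e₁.toMonoidHom.comp ε.symm.toMonoidHom
  have hinj : Function.Injective e := e₁.injective.comp ε.symm.injective
  have hsur : Function.Surjective e := e₁.surjective.comp ε.symm.surjective
  obtain ⟨r, hr⟩ := wl_head l
  refine ⟨(emb β 2).range, Fin 2, inferInstance, au l, wl l, 0, e,
    Multiplicative.toAdd (f (tR (au l))) * 2, b_fin β 2, pos_au l ht hf, by rw [hr]; rfl, hinj,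
    ?_, ?_⟩
  · rw [MonoidHom.range_eq_top.2 hsur]
    infer_instance
  · intro x
    obtain ⟨y, rfl⟩ := ε.surjective x
    have h6 : ((ε y : (emb β 2).range) : GR β) = emb β 2 y := rfl
    have h7 : e (ε y) = e₁ y := by
      show e₁ (ε.symm (ε y)) = e₁ y
      rw [MulEquiv.symm_apply_apply]
    have h8 : f (e₁ y) = nR (β ^ 2) y := by
      show nR (β ^ 2) (e₁.symm (e₁ y)) = _
      rw [MulEquiv.symm_apply_apply]
    rw [h6, b_nR, h7, zpow_mul, ← hfk, h8]
    rfl

end Pool.Agent.MP_305fdd_al.Reg
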