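import Pool.Agent.Lib.MP_305fdd_al.Reg.Irr

/-!
# MP_305fdd_al: the transferred character over every algebraically closed field
-/

set_option autoImplicit false

namespace Pool.Agent.MP_305fdd_al.Reg

open Pool.Agent.MP_305fdd_al Pool.Agent.Lib.MP_305fdd_al Pool.Agent.F8 Pool.Agent.F8.CG

theorem inj_bar {A : Type} [CommRing A] [IsDomain A] [Module.Free ℤ A] [Module.Finite ℤ A]
    (j : A →+* AlgebraicClosure ℚ) : Function.Injective j := by
  rw [RingHom.injective_iff_ker_eq_bot]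
  by_contra hne
  have hfin : Finite (A ⧸ RingHom.ker j) := Ideal.finiteQuotientOfFreeOfNeBot _ hne
  have hft : Fintype (A ⧸ RingHom.ker j) := Fintype.ofFinite _
  have h1 : ((Fintype.card (A ⧸ RingHom.ker j) : ℕ) : A ⧸ RingHom.ker j) = 0 :=
    Nat.cast_card_eq_zero _
  have h2 : ((Fintype.card (A ⧸ RingHom.ker j) : ℕ) : A) ∈ RingHom.ker j := by
    rw [← Ideal.Quotient.eq_zero_iff_mem, map_natCast]
    exact h1
  rw [RingHom.mem_ker, map_natCast] at h2
  have h3 : Fintype.card (A ⧸ RingHom.ker j) = 0 := by exact_mod_cast h2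
  have h4 : Nonempty (A ⧸ RingHom.ker j) := ⟨0⟩
  exact Fintype.card_ne_zero h3

theorem alg_rat : Algebra.IsAlgebraic ℚ (AlgebraicClosure ℚ) := by
  have h := AlgebraicClosure.isAlgebraic ℚ
  have h2 : (DivisionRing.toRatAlgebra : Algebra ℚ (AlgebraicClosure ℚ)) =
      AlgebraicClosure.instAlgebra ℚ := Subsingleton.elim _ _
  rw [h2]
  exact h

theorem alg_bar (x : AlgebraicClosure ℚ) : IsAlgebraic ℤ x := by
  have h := alg_rat
  exact (IsFractionRing.isAlgebraic_iff ℤ ℚ (AlgebraicClosure ℚ)).2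
    (Algebra.IsAlgebraic.isAlgebraic (R := ℚ) x)

theorem ext_bar {A : Type} [CommRing A] [IsDomain A] [Module.Free ℤ A] [Module.Finite ℤ A]
    (j : A →+* AlgebraicClosure ℚ) (k : Type) [Field k] [IsAlgClosed k] (i : A →+* k)
    (hi : Function.Injective i) : ∃ f : AlgebraicClosure ℚ →+* k, ∀ a, f (j a) = i a := by
  have hj := inj_bar j
  have hc : CharZero A := g_char A
  let _ : Algebra A (AlgebraicClosure ℚ) := j.toAlgebra
  let _ : Algebra A k := i.toAlgebra
  have h1 : FaithfulSMul A (AlgebraicClosure ℚ) :=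
    (faithfulSMul_iff_algebraMap_injective A (AlgebraicClosure ℚ)).2 hj
  have h2 : FaithfulSMul A k := (faithfulSMul_iff_algebraMap_injective A k).2 hi
  have h3 : Algebra.IsAlgebraic A (AlgebraicClosure ℚ) := by
    refine ⟨fun x => ?_⟩
    exact (alg_bar x).extendScalars (RingHom.injective_int (algebraMap ℤ A))
  let f : AlgebraicClosure ℚ →ₐ[A] k := IsAlgClosed.lift
  exact ⟨f.toRingHom, fun a => f.commutes a⟩

theorem all_fields {D L : Type} [Group D] [Group L] (Ψ : NatBij D L) {A : Type} [CommRing A]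
    [IsDomain A] [Module.Free ℤ A] [Module.Finite ℤ A] (ρ₀ : D →* SL2 A) (T : L → A)
    (hT : Red Ψ ρ₀ T) (j : A →+* AlgebraicClosure ℚ) (s : L →* SL2 (AlgebraicClosure ℚ))
    (hs : ∀ l, tr (s l) = j (T l)) (k : Type) [Field k] [IsAlgClosed k] (i : A →+* k) :
    ∃ ρ : L →* SL2 k, ∀ l, tr (ρ l) = i (T l) := by
  by_cases hi : Function.Injective i
  · obtain ⟨f, hf⟩ := ext_bar j k i hi
    refine ⟨(SLm f).comp s, fun l => ?_⟩
    rw [← hf, ← hs]
    exact tr_map f _
  · rw [RingHom.injective_iff_ker_eq_bot] at hi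
    have hfin : Finite (A ⧸ RingHom.ker i) := Ideal.finiteQuotientOfFreeOfNeBot _ hi
    refine ⟨(SLm (RingHom.kerLift i)).comp
      (Ψ.toFun _ ((SLm (Ideal.Quotient.mk (RingHom.ker i))).comp ρ₀)), fun l => ?_⟩
    have h1 := hT _ (Ideal.Quotient.mk (RingHom.ker i)) l
    have h2 := tr_map (RingHom.kerLift i)
      (Ψ.toFun _ ((SLm (Ideal.Quotient.mk (RingHom.ker i))).comp ρ₀) l)
    rw [← h1] at h2
    exact h2

end Pool.Agent.MP_305fdd_al.Reg
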