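import Mathlib

/-!
# MP_305fdd_al: isomorphisms of profinite completions; the fibrations
-/

set_option autoImplicit false

namespace Pool.Agent.MP_305fdd_al.Reg

/-- An isomorphism between the profinite completions of `G` and `H`, in the form of a family of bijections
`Hom(G, Q) → Hom(H, Q)`, `Q` a finite group, which is natural in `Q`. -/
structure ProIso (G H : Type) [Group G] [Group H] where
  /-- the bijections -/
  equiv : ∀ (Q : Type) [Group Q] [Finite Q], (G →* Q) ≃ (H →* Q)
  /-- naturality -/
  natural : ∀ (Q R : Type) [Group Q] [Finite Q] [Group R] [Finite R] (f : Q →* R) (θ : G →* Q),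
    equiv R (f.comp θ) = f.comp (equiv Q θ)

/-- `F ⋊ ℤ`: the generator of `ℤ` acts by `α` on the free group `F` with the basis `ι` -/
abbrev FZ {ι : Type} (α : MulAut (FreeGroup ι)) : Type :=
  FreeGroup ι ⋊[zpowersHom (MulAut (FreeGroup ι)) α] Multiplicative ℤ

/-- the projection of `F ⋊ ℤ` to `ℤ` -/
def pr {ι : Type} (α : MulAut (FreeGroup ι)) : FZ α →* Multiplicative ℤ :=
  SemidirectProduct.rightHom

/-- The turns of the substitution `i ↦ w i`: the pairs of consecutive letters of the words `w i`
and of the words which arise from them by repeated substitution. -/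
inductive Turn {ι : Type} (w : ι → List ι) : ι → ι → Prop
  | base (i b a : ι) (h : [b, a] <:+: w i) : Turn w b a
  | step (b a b' a' : ι) (h : Turn w b a) (hb : (w b).getLast? = some b')
      (ha : (w a).head? = some a') : Turn w b' a'

/-- The automorphism `α` of the free group is positive: it maps the basis element `i` to the positive
word `w i`, it is irreducible, its graph of turns is connected, and some word `w i` begins with `i`. -/
structure Positive {ι : Type} (α : MulAut (FreeGroup ι)) (w : ι → List ι) : Prop where
  /-- `α i` is the product of the letters of the word `w i` -/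
  eq : ∀ i, α (FreeGroup.of i) = ((w i).map FreeGroup.of).prod
  /-- irreducibility: `j` is reached from `i` by steps from a letter to a letter of its word -/
  irr : ∀ i j, Relation.ReflTransGen (fun i j => j ∈ w i) i j
  /-- the graph with the vertices `inl i`, `inr i` and the edges `inl b` to `inr a`, `b a` a turn, is
  connected -/
  con : ∀ x y : ι ⊕ ι, Relation.EqvGen
    (fun x y => ∃ b a, x = Sum.inl b ∧ y = Sum.inr a ∧ Turn w b a) x y
  /-- some word begins with its letter -/
  head : ∃ i, (w i).head? = some i

/-- `p : D → ℤ` is the restriction of the projection of some `F ⋊ ℤ`, `F` of finite rank, `α` positive, to a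
subgroup of finite index isomorphic to `D`. -/
def PositiveFibration {D : Type} [Group D] (p : D →* Multiplicative ℤ) : Prop :=
  ∃ (ι : Type) (α : MulAut (FreeGroup ι)) (w : ι → List ι) (e : D →* FZ α),
    Finite ι ∧ Positive α w ∧ Function.Injective e ∧ e.range.FiniteIndex ∧
      ∀ x, p x = pr α (e x)

/-- the exponent sum of the generator `i` -/
def expSum (i : Fin 2) : FreeGroup (Fin 2) →* Multiplicative ℤ :=
  FreeGroup.lift fun k => Multiplicative.ofAdd (if k = i then 1 else 0)

/-- the matrix through which an automorphism of the free group of rank two acts on `ℤ ^ 2` -/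
def abMat (β : MulAut (FreeGroup (Fin 2))) : Matrix (Fin 2) (Fin 2) ℤ :=
  Matrix.of fun i j => Multiplicative.toAdd (expSum i (β (FreeGroup.of j)))

/-- `p : D → ℤ` is the restriction of the projection of some `F₂ ⋊ ℤ`, the generator of `ℤ` acting by an
automorphism `β` of the free group of rank two whose matrix `B` has `tr B² > 2` (these are the groups of the
hyperbolic once-punctured torus bundles), to a subgroup of finite index isomorphic to `D`. -/
def BundleFibration {D : Type} [Group D] (p : D →* Multiplicative ℤ) : Prop :=
  ∃ (β : MulAut (FreeGroup (Fin 2))) (e : D →* FZ β),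
    2 < (abMat β ^ 2).trace ∧ Function.Injective e ∧ e.range.FiniteIndex ∧ ∀ x, p x = pr β (e x)

/-- `p : D → ℤ` is a fibration of one of the two kinds. -/
def Fibration {D : Type} [Group D] (p : D →* Multiplicative ℤ) : Prop :=
  PositiveFibration p ∨ BundleFibration p

end Pool.Agent.MP_305fdd_al.Reg
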