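import Pool.Agent.Lib.MP_305fdd_al.Reg.Defs

/-!
# MP_305fdd_al: definitions for the regularity theorem
-/

set_option autoImplicit false

namespace Pool.Agent.MP_305fdd_al.Reg

variable {G H : Type} [Group G] [Group H]

/-- reduction modulo `m` -/
def modM (m : ℕ) : Multiplicative ℤ →* Multiplicative (ZMod m) :=
  AddMonoidHom.toMultiplicative (Int.castRingHom (ZMod m)).toAddMonoidHom

/-- The classes `c` and `c'` correspond: modulo every `m`, their reductions do. -/
def ProIso.Matches (Φ : ProIso G H) (c : G →* Multiplicative ℤ) (c' : H →* Multiplicative ℤ) :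
    Prop :=
  ∀ (m : ℕ) [NeZero m], Φ.equiv (Multiplicative (ZMod m)) ((modM m).comp c) = (modM m).comp c'

/-- The subgroups `K` and `K'` have corresponding images in all finite quotients. -/
def ProIso.SameImages (Φ : ProIso G H) (K : Subgroup G) (K' : Subgroup H) : Prop :=
  ∀ (Q : Type) [Group Q] [Finite Q] (θ : G →* Q), K.map θ = K'.map (Φ.equiv Q θ)

/-- The class `c` is, on some subgroup `D` of finite index, a multiple of a fibration. -/
def FibreClass (c : G →* Multiplicative ℤ) : Prop :=
  ∃ (D : Subgroup G) (p : D →* Multiplicative ℤ) (k : ℤ),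
    D.FiniteIndex ∧ Fibration p ∧ ∀ x : D, c x = p x ^ k

end Pool.Agent.MP_305fdd_al.Reg
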