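import Pool.Agent.Lib.MP_305fdd_al.Reg.Defs

/-!
# MP_305fdd_al: definitions for the transfer of representations
-/

set_option autoImplicit false

namespace Pool.Agent.MP_305fdd_al.Reg

variable {G H : Type} [Group G] [Group H]

/-- `Ψ` is the restriction of `Φ` to the subgroups `D` and `L`. -/
def ProIso.Restricts (Φ : ProIso G H) {D : Subgroup G} {L : Subgroup H} (Ψ : ProIso D L) : Prop :=
  ∀ (Q : Type) [Group Q] [Finite Q] (θ : G →* Q),
    Ψ.equiv Q (θ.comp D.subtype) = (Φ.equiv Q θ).comp L.subtype

/-- the character of a representation -/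
def chr {A : Type} [CommRing A] (ρ : G →* Matrix.SpecialLinearGroup (Fin 2) A) (g : G) : A :=
  (ρ g).val.trace

/-- The character `t` is irreducible on the commutator subgroup of every subgroup `U` of finite index. -/
def Irr {A : Type} [CommRing A] (t : G → A) : Prop :=
  ∀ U : Subgroup G, U.FiniteIndex → ∃ g ∈ ⁅U, U⁆, ∃ h ∈ ⁅U, U⁆, t (g * h * g⁻¹ * h⁻¹) ≠ 2

/-- The representation `ρ₀` of `G` in `SL₂(A)` transfers to `H`: there is a function `T : H → A`, with the
irreducibility above, whose values generate the same subring of `A` as the traces of `ρ₀`. For every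
homomorphism `i` from `A` to an algebraically closed field `k`, `iT` is the character of a representation of
`H` in `SL₂(k)`, and for every homomorphism `h` from `A` to a finite ring `S`, `hT` is the character of the
representation of `H` in `SL₂(S)` which corresponds to `h(ρ₀)`. -/
def ProIso.Transfers (Φ : ProIso G H) {A : Type} [CommRing A]
    (ρ₀ : G →* Matrix.SpecialLinearGroup (Fin 2) A) : Prop :=
  ∃ T : H → A, Irr T ∧ Subring.closure (Set.range T) = Subring.closure (Set.range (chr ρ₀)) ∧
    (∀ (k : Type) [Field k] [IsAlgClosed k] (i : A →+* k),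
      ∃ ρ : H →* Matrix.SpecialLinearGroup (Fin 2) k, ∀ l, chr ρ l = i (T l)) ∧
    ∀ (S : Type) [CommRing S] [Finite S] (h : A →+* S) (l : H),
      h (T l) = chr (Φ.equiv _ ((Matrix.SpecialLinearGroup.map h).comp ρ₀)) l

end Pool.Agent.MP_305fdd_al.Reg
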