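import Mathlib

/-!
# MP_305fdd_al: embeddings of finite index, composed
-/

set_option autoImplicit false

namespace Pool.Agent.MP_305fdd_al.Reg

/-- the image of a subgroup of finite index under a homomorphism with range of finite index -/
theorem fin_map {X Y : Type} [Group X] [Group Y] (f : X →* Y) (K : Subgroup X)
    (hK : K.FiniteIndex) (hf : f.range.FiniteIndex) : (K.map f).FiniteIndex := by
  have h1 : (K ⊔ f.ker).FiniteIndex := Subgroup.finiteIndex_of_le le_sup_left
  refine ⟨?_⟩
  rw [Subgroup.index_map]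
  exact mul_ne_zero h1.index_ne_zero hf.index_ne_zero

theorem down {G X Y : Type} [Group G] [Group X] [Group Y] (D : Subgroup G) (hD : D.FiniteIndex)
    (e : D →* X) (he : Function.Injective e) (hr : e.range.FiniteIndex)
    (D₂ : Subgroup X) (hD₂ : D₂.FiniteIndex) (e₂ : D₂ →* Y) (he₂ : Function.Injective e₂)
    (hr₂ : e₂.range.FiniteIndex) :
    ∃ (D' : Subgroup G) (e' : D' →* Y), D' ≤ D ∧ D'.FiniteIndex ∧ Function.Injective e' ∧
      e'.range.FiniteIndex ∧
      ∀ x : D', ∃ (h : (x : G) ∈ D) (h₂ : e ⟨x, h⟩ ∈ D₂), e' x = e₂ ⟨e ⟨x, h⟩, h₂⟩ := by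
  let K : Subgroup D := D₂.comap e
  have hK : K.FiniteIndex := by
    refine ⟨?_⟩
    change (D₂.comap e).index ≠ 0
    rw [Subgroup.index_comap]
    have h1 : (D₂.subgroupOf e.range).FiniteIndex := inferInstance
    exact h1.index_ne_zero
  let f : K →* D₂ := (e.comp K.subtype).codRestrict D₂ (fun x => x.2)
  have hf : ∀ x : K, (f x : X) = e x := fun x => rfl
  have hfi : Function.Injective f := by
    intro x y hxy
    apply Subtype.ext
    apply he
    rw [← hf, ← hf, hxy]
  have hfr : f.range.FiniteIndex := by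
    have h1 : (e.range.subgroupOf D₂).FiniteIndex := inferInstance
    have h2 : e.range.subgroupOf D₂ ≤ f.range := by
      rintro ⟨y, hy⟩ hy'
      obtain ⟨x, hx⟩ := Subgroup.mem_subgroupOf.1 hy'
      have hx' : e x = y := hx
      refine ⟨⟨x, ?_⟩, ?_⟩
      · change e x ∈ D₂
        rw [hx']
        exact hy
      · apply Subtype.ext
        exact hx'
    exact Subgroup.finiteIndex_of_le h2
  let E : K ≃* (K.map D.subtype) := K.equivMapOfInjective D.subtype D.subtype_injective
  have hE : ∀ x : K, ((E x : K.map D.subtype) : G) = ((x : D) : G) := fun x => rfl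
  refine ⟨K.map D.subtype, (e₂.comp f).comp E.symm.toMonoidHom, ?_, ?_, ?_, ?_, ?_⟩
  · rintro _ ⟨x, -, rfl⟩
    exact x.2
  · exact fin_map D.subtype K hK (by rw [Subgroup.range_subtype]; exact hD)
  · exact (he₂.comp hfi).comp E.symm.injective
  · have h1 : ((e₂.comp f).comp E.symm.toMonoidHom).range = f.range.map e₂ := by
      rw [MonoidHom.range_comp, MonoidHom.range_eq_top_of_surjective E.symm.toMonoidHom
        E.symm.surjective, ← MonoidHom.range_eq_map, MonoidHom.range_comp]
    rw [h1]
    exact fin_map e₂ _ hfr hr₂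
  · intro x
    have hx : ((E.symm x : D) : G) = x := by
      rw [← hE, E.apply_symm_apply]
    have h : (x : G) ∈ D := by
      rw [← hx]
      exact (E.symm x : D).2
    have h3 : (⟨x, h⟩ : D) = (E.symm x : D) := Subtype.ext hx.symm
    have h₂ : e ⟨x, h⟩ ∈ D₂ := by
      rw [h3]
      exact (E.symm x).2
    refine ⟨h, h₂, ?_⟩
    show e₂ (f (E.symm x)) = _
    congr 1
    apply Subtype.ext
    show e (E.symm x : D) = e ⟨x, h⟩
    rw [h3]

end Pool.Agent.MP_305fdd_al.Reg
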