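import Pool.Agent.Lib.MP_305fdd_al.Reg.Gfam

/-!
# MP_305fdd_al: the hypotheses of the transfer, for representations over any order `A` of a number field

This is `F8/CG/P_TH.lean` with a general ring `A` instead of an imaginary quadratic order.
-/

set_option autoImplicit false

namespace Pool.Agent.MP_305fdd_al.Reg

open Pool.Agent.F8.BG Pool.Agent.Lib.MP_305fdd_al Pool.Agent.F8 Pool.Agent.F8.CG

noncomputable section

/-- the hypotheses of the transfer -/
theorem g_TH {G : Type} [Group G] [Group.FG G] (nG : G →* Multiplicative ℤ) {A : Type} [CommRing A]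
    [IsDomain A] [Module.Free ℤ A] [Module.Finite ℤ A] (ρ₀ : G →* SL2 A)
    (hirr : ∀ L : Subgroup G, L.FiniteIndex → IrC L ρ₀) (hF : FamA nG ρ₀) :
    ∃ (B : Type) (_ : CommRing B) (_ : IsDomain B) (_ : Module.Free ℤ B)
      (_ : Module.Finite ℤ B) (e : A →+* B) (N : ℕ) (t : Fin N → Tst G B), TH ρ₀ e t ∧
    ∀ i, ∃ (L : Subgroup G) (hL : L.FiniteIndex) (k : ℕ) (nL : L →* Multiplicative ℤ) (m : ℕ)
      (u : GL (Fin m) B) (d : ℕ), 1 ≤ k ∧ (∀ x : L, nG x = nL x ^ k) ∧
      t i = ⟨L, hL, m, (zpowersHom (GL (Fin m) B) u).comp nL, d⟩ := by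
  have hT := p_Tind
  obtain ⟨n, c, L, hc, nL, N, M, hn0, hL, hM, hPol, hk, -, M₁, hM₁, hM₁'⟩ := hF
  obtain ⟨B, iB1, iB2, iB3, e, n', t, he, ht, htL, htz, M₀, hM₀, hM₀'⟩ :=
    g_fam ρ₀ hirr n c L hc nL N M hL hM hPol
  choose jj mm ττ htt using ht
  obtain rfl : t = fun i => ⟨L (jj i), nL (jj i), mm i, ττ i⟩ := funext htt
  have hcA : CharZero A := g_char A
  have hcz : CharZero B := charZero_of_injective_ringHom he
  have hfree : Module.Free ℤ B := inferInstance
  refine ⟨B, iB1, iB2, hfree, iB3, e, n', fun i => ⟨L (jj i), hL (jj i), mm i,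
    (zpowersHom (GL (Fin (mm i)) B) (jorG (mm i) (ττ i))⁻¹).comp (nL (jj i)), 3 * mm i⟩,
    ⟨?_, ?_, ?_⟩, ?_⟩
  · obtain ⟨i, -⟩ := htL ⟨0, hn0⟩
    exact lt_of_le_of_lt (Nat.zero_le _) i.2
  · intro i
    constructor
    · obtain ⟨g, hg, h, hh, hne⟩ := (TH_irc (L (jj i)) ρ₀).1 (hirr _ (hL (jj i)))
      refine ⟨g, hg, h, hh, ?_⟩
      show tr (SLm e (ρ₀ _)) ≠ 2
      rw [tr_map]
      intro h2
      exact hne (he (by rw [h2, map_ofNat]))
    · obtain ⟨z, hz, hli⟩ := htz i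
      refine ⟨fun b => TH_th _ _ _ _ (z b) (hz b), fun b => ⟨?_, ?_⟩, TH_ind hT z hli⟩
      · rfl
      · apply MonoidHom.ext
        intro x
        apply Units.ext
        ext r s
        rfl
  · refine ⟨(M₀ * M₁).natAbs, by
      rw [Int.natAbs_ne_zero]
      exact mul_ne_zero hM₀ hM₁, ?_⟩
    intro k _ _ hMk j ρ hHT
    have hMk' : ((M₀ * M₁ : ℤ) : k) ≠ 0 := by
      intro h0
      apply hMk
      rcases Int.natAbs_eq (M₀ * M₁) with h | h
      · rw [h, Int.cast_natCast] at h0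
        exact h0
      · rw [h, Int.cast_neg, Int.cast_natCast, neg_eq_zero] at h0
        exact h0
    rw [Int.cast_mul] at hMk'
    have hk0 := left_ne_zero_of_mul hMk'
    have hk1 := right_ne_zero_of_mul hMk'
    have htr := hM₀' k hk0 j ρ (fun i => (TH_irc _ ρ).2 (hHT i).irr) (fun i => by
      obtain ⟨Θ, hΘ, y, hy⟩ := (hHT i).coc
      have hfi : (L (jj i)).FiniteIndex := hL (jj i)
      have hfg : Group.FG (L (jj i)) := inferInstance
      have hfd := TH_fd (nL (jj i)) (mm i) (ρ.comp (L (jj i)).subtype)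
        (jorG (mm i) (Units.map j.toMonoidHom (ττ i)))
      have hmem : ∀ s, (fun x => (Θ s x).v) ∈ Zc (nL (jj i)) (mm i)
          (ρ.comp (L (jj i)).subtype) (jorG (mm i) (Units.map j.toMonoidHom (ττ i))) :=
        fun s => TH_back j _ _ _ _ (Θ s) (hΘ s).1 (hΘ s).2
      have hli : LinearIndependent k (fun s (x : L (jj i)) => (Θ s x).v) :=
        (hT (L (jj i)) (mm i) (3 * mm i) k _).2 ⟨y, hy⟩
      let z : Fin (3 * mm i) → Zc (nL (jj i)) (mm i)
          (ρ.comp (L (jj i)).subtype) (jorG (mm i) (Units.map j.toMonoidHom (ττ i))) :=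
        fun s => ⟨_, hmem s⟩
      have hli' : LinearIndependent k z := LinearIndependent.of_comp (Submodule.subtype _) hli
      have h1 := hli'.fintype_card_le_finrank
      rw [Fintype.card_fin] at h1
      exact h1)
    intro g
    exact hM₁' k hk1 (j.comp e) ρ htr g
  · intro i
    obtain ⟨k, hk1, hk2⟩ := hk (jj i)
    exact ⟨L (jj i), hL (jj i), k, nL (jj i), mm i, (jorG (mm i) (ττ i))⁻¹, 3 * mm i, hk1, hk2,
      rfl⟩

end

end Pool.Agent.MP_305fdd_al.Reg
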