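import Pool.Agent.Lib.MP_305fdd_al.Reg.GthF

/-!
# MP_305fdd_al: the tests, for representations over any order `A` of a number field

This is `F8/CG/P_fam.lean` (helper53) with a general ring `A` instead of an imaginary quadratic order.
-/

set_option autoImplicit false

namespace Pool.Agent.MP_305fdd_al.Reg

open Pool.Agent.F8.BG Pool.Agent.MP_305fdd_al Pool.Agent.Lib.MP_305fdd_al Pool.Agent.F8
open Pool.Agent.F8.CG Pool.Agent.F8.NG.T

/-- the characteristic is zero -/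
theorem g_char (A : Type) [CommRing A] [IsDomain A] [Module.Free ℤ A] : CharZero A :=
  charZero_of_injective_algebraMap (FaithfulSMul.algebraMap_injective ℤ A)

private theorem fam_conj {R : Type} [CommRing R] {g h : SL2 R} (hc : IsConj g h) :
    tr g = tr h := by
  obtain ⟨c, hc⟩ := isConj_iff.1 hc
  rw [← hc]
  show g.val.trace = (c * g * c⁻¹).val.trace
  have h1 : (c * g * c⁻¹).val = c.val * g.val * c⁻¹.val := rfl
  have h2 : c⁻¹.val * c.val = 1 := by
    have h3 : (c⁻¹ * c).val = (1 : SL2 R).val := by rw [inv_mul_cancel]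
    exact h3
  rw [h1, Matrix.trace_mul_comm, ← Matrix.mul_assoc, h2, Matrix.one_mul]

theorem fam_eq {A : Type} [CommRing A] [Module.Free ℤ A] (x y : A)
    (h : ∀ m : ℕ, m ≠ 0 → Ideal.Quotient.mk (Ideal.span {(m : A)}) x =
      Ideal.Quotient.mk (Ideal.span {(m : A)}) y) : x = y := by
  have b := Module.Free.chooseBasis ℤ A
  rw [← sub_eq_zero]
  apply b.repr.injective
  rw [map_zero]
  ext i
  have h1 := h ((b.repr (x - y) i).natAbs + 1) (Nat.succ_ne_zero _)
  rw [Ideal.Quotient.eq, Ideal.mem_span_singleton'] at h1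
  obtain ⟨z, hz⟩ := h1
  have h2 : x - y = (((b.repr (x - y) i).natAbs + 1 : ℕ) : ℤ) • z := by
    rw [zsmul_eq_mul, Int.cast_natCast, mul_comm]
    exact hz.symm
  have h3 : b.repr (x - y) i = (((b.repr (x - y) i).natAbs + 1 : ℕ) : ℤ) * b.repr z i := by
    conv_lhs => rw [h2]
    rw [map_smul, Finsupp.smul_apply, smul_eq_mul]
  rw [Finsupp.coe_zero, Pi.zero_apply]
  refine Int.eq_zero_of_abs_lt_dvd (Dvd.intro _ h3.symm) ?_
  rw [Int.abs_eq_natAbs]
  push_cast
  omega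

/-- profinitely conjugate elements have the same traces -/
private theorem fam_pc {G : Type} [Group G] {A : Type} [CommRing A] [IsDomain A]
    [Module.Free ℤ A] [Module.Finite ℤ A] (ρ : G →* SL2 A) {c' c : G}
    (h : PConj c' c) : tr (ρ c') = tr (ρ c) := by
  apply fam_eq
  intro m hm
  have hc : CharZero A := g_char A
  have hfin : Finite (A ⧸ Ideal.span {(m : A)}) := by
    apply Ideal.finiteQuotientOfFreeOfNeBot
    rw [Ne, Ideal.span_singleton_eq_bot]
    exact_mod_cast hm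
  have h1 := fam_conj (h _ ((SLm (Ideal.Quotient.mk (Ideal.span {(m : A)}))).comp ρ))
  rw [MonoidHom.comp_apply, MonoidHom.comp_apply] at h1
  rwa [tr_map, tr_map] at h1

/-- the finite extension -/
private theorem fam_ring {A : Type} [CommRing A] [IsDomain A] [Module.Free ℤ A]
    [Module.Finite ℤ A] (K : Type) [Field K] (e₀ : A →+* K) (R₀ : Finset K)
    (hR : ∀ τ ∈ R₀, τ ≠ 0 ∧ IsIntegral ℤ τ ∧ IsIntegral ℤ τ⁻¹) :
    ∃ (B : Type) (_ : CommRing B) (_ : IsDomain B) (_ : Module.Finite ℤ B)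
      (e : A →+* B) (v : B →+* K) (R : Finset Bˣ), Function.Injective v ∧
      v.comp e = e₀ ∧ R.Nonempty ∧ ∀ τ ∈ R₀, ∃ u ∈ R, v (u : B) = τ := by
  classical
  have hint : ∀ z : A, IsIntegral ℤ (e₀ z) := by
    intro z
    have h1 : IsIntegral ℤ z := Algebra.IsIntegral.isIntegral z
    exact h1.map e₀.toIntAlgHom
  obtain ⟨S₀, hS₀⟩ := (Module.Finite.fg_top : (⊤ : Submodule ℤ A).FG)
  let S : Set K := e₀ '' (S₀ : Set A) ∪ ((R₀ : Set K) ∪ (fun x : K => x⁻¹) '' (R₀ : Set K))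
  have hSf : S.Finite := ((Finset.finite_toSet _).image _).union
    ((Finset.finite_toSet _).union ((Finset.finite_toSet _).image _))
  have hSi : ∀ x ∈ S, IsIntegral ℤ x := by
    rintro x (⟨y, hy, rfl⟩ | hx | ⟨y, hy, rfl⟩)
    · exact hint _
    · exact (hR x hx).2.1
    · exact (hR y hy).2.2
  let B : Subalgebra ℤ K := Algebra.adjoin ℤ S
  have hBf : Module.Finite ℤ B := Algebra.finite_adjoin_of_finite_of_isIntegral hSf hSi
  have hSB : ∀ x ∈ S, x ∈ B := fun x hx => Algebra.subset_adjoin hx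
  have heB : ∀ z : A, e₀ z ∈ B := by
    intro z
    have hz : z ∈ Submodule.span ℤ (S₀ : Set A) := by rw [hS₀]; trivial
    induction hz using Submodule.span_induction with
    | mem x hx => exact hSB _ (Or.inl ⟨x, hx, rfl⟩)
    | zero => rw [map_zero]; exact zero_mem B
    | add x y _ _ hx hy => rw [map_add]; exact add_mem hx hy
    | smul n x _ hx =>
      rw [zsmul_eq_mul, map_mul, map_intCast]
      exact mul_mem (intCast_mem B _) hx
  have hu : ∀ τ : R₀, ∃ u : Bˣ, ((u : B) : K) = τ := by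
    rintro ⟨τ, hτ⟩
    have h1 : τ ∈ B := hSB _ (Or.inr (Or.inl hτ))
    have h2 : τ⁻¹ ∈ B := hSB _ (Or.inr (Or.inr ⟨τ, hτ, rfl⟩))
    have h3 := (hR τ hτ).1
    exact ⟨⟨⟨τ, h1⟩, ⟨τ⁻¹, h2⟩, Subtype.ext (mul_inv_cancel₀ h3),
      Subtype.ext (inv_mul_cancel₀ h3)⟩, rfl⟩
  choose u hu using hu
  refine ⟨B, inferInstance, inferInstance, hBf, e₀.codRestrict B heB, B.val.toRingHom,
    insert 1 (Finset.univ.image u), Subtype.val_injective, ?_, Finset.insert_nonempty _ _, ?_⟩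
  · ext z; rfl
  · intro τ hτ
    exact ⟨u ⟨τ, hτ⟩, Finset.mem_insert_of_mem (Finset.mem_image_of_mem _ (Finset.mem_univ _)),
      hu ⟨τ, hτ⟩⟩

private theorem fam_map {G R S : Type} [Group G] [CommRing R] [CommRing S] (f : R →+* S)
    (ρ : G →* SL2 R) (g : G) : tr (((SLm f).comp ρ) g) = f (tr (ρ g)) := by
  rw [MonoidHom.comp_apply]
  exact tr_map f _

/-- the tests -/
theorem g_fam {G : Type} [Group G] [Group.FG G] {A : Type} [CommRing A] [IsDomain A]
    [Module.Free ℤ A] [Module.Finite ℤ A] (ρ₀ : G →* SL2 A)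
    (hirr : ∀ L : Subgroup G, L.FiniteIndex → IrC L ρ₀)
    (n : ℕ) (c : Fin n → G) (L : Fin n → Subgroup G) (hc : ∀ i, c i ∈ L i)
    (nL : ∀ i, L i →* Multiplicative ℤ) (N : Fin n → ℕ) (M : Fin n → ℤ)
    (hL : ∀ i, (L i).FiniteIndex) (hM : ∀ i, M i ≠ 0)
    (hP : ∀ i, PolD (c i) (L i) (hc i) (nL i) (N i) (M i)) :
    ∃ (B : Type) (_ : CommRing B) (_ : IsDomain B) (_ : Module.Finite ℤ B)
      (e : A →+* B) (n' : ℕ) (t : Fin n' → TT G B), Function.Injective e ∧
    (∀ i, ∃ (j : Fin n) (m : ℕ) (τ : Bˣ), t i = ⟨L j, nL j, m, τ⟩) ∧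
    (∀ j : Fin n, ∃ i, (t i).L = L j) ∧
    (∀ i, ∃ z : Fin (3 * (t i).m) → (t i).L → Matrix (Fin 2) (Fin (t i).m) B,
      (∀ b, z b ∈ Zc (t i).nL (t i).m ((SLm e).comp (ρ₀.comp (t i).L.subtype))
        (jorG (t i).m (t i).τ)) ∧ LinearIndependent B z) ∧
    ∃ M₀ : ℤ, M₀ ≠ 0 ∧ ∀ (k : Type) [Field k] [Finite k], (M₀ : k) ≠ 0 → ∀ (j : B →+* k)
      (ρ : G →* SL2 k), (∀ i, IrC (t i).L ρ) → (∀ i, (t i).Pass j ρ) →
      ∀ i, tr (ρ (c i)) = j (e (tr (ρ₀ (c i)))) := by
  classical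
  have hpol := p_pol
  have hnrm := p_nrm
  have hbc := p_bc
  -- the field
  have : Fact (Nat.Prime 2) := ⟨Nat.prime_two⟩
  obtain ⟨K, iK, iK0, iKc, e₀, -⟩ : ∃ (K : Type) (_ : Field K) (_ : CharZero K) (_ : IsAlgClosed K)
      (_ : A →+* K), True :=
    ⟨Fl 2, inferInstance, inferInstance, inferInstance, (p_exj A 2).choose, trivial⟩
  have he₀ : Function.Injective e₀ := (p_ji A).1 K e₀
  let ρK : G →* SL2 K := (SLm e₀).comp ρ₀
  have hρK : ∀ g, tr (ρK g) = e₀ (tr (ρ₀ g)) := fam_map e₀ ρ₀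
  have hirK : ∀ L : Subgroup G, L.FiniteIndex → IrC L ρK := by
    intro L hL
    obtain ⟨g, hg, h, hh, hgh⟩ := hirr L hL
    refine ⟨g, hg, h, hh, fun h2 => hgh ?_⟩
    rw [hρK] at h2
    apply he₀
    rw [h2, map_ofNat]
  have hpcK : ∀ c c' : G, PConj c' c → tr (ρK c') = tr (ρK c) := by
    intro c c' h
    rw [hρK, hρK, fam_pc ρ₀ h]
  choose P hPP using fun i => hP i K ρK (hirK _ (hL i)) (hpcK _)
  -- the ring
  have hintK : ∀ (x : G) (i j : Fin 2), IsIntegral ℤ ((ρK x).val i j) := by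
    intro x i j
    have h1 : IsIntegral ℤ ((ρ₀ x).val i j) := Algebra.IsIntegral.isIntegral _
    exact h1.map e₀.toIntAlgHom
  obtain ⟨B, iB, iBd, iBf, e, v, R, hv, hve, ⟨r₀, hr₀⟩, hR⟩ := fam_ring K e₀
    (Finset.univ.biUnion fun i => (P i).roots.toFinset) (by
      intro τ hτ
      obtain ⟨c, -, hc⟩ := Finset.mem_biUnion.1 hτ
      have h2 : (P c).IsRoot τ := Polynomial.isRoot_of_mem_roots (Multiset.mem_toFinset.1 hc)
      refine ⟨?_, (hPP c).int (fun x i j => hintK _ i j) τ h2⟩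
      rintro rfl
      exact (hPP c).ne h2)
  have hve' : ∀ z, v (e z) = e₀ z := fun z => by rw [← hve]; rfl
  have he : Function.Injective e := by
    intro z z' h
    apply he₀
    rw [← hve', ← hve', h]
  have hroot : ∀ i, ∀ τ, (P i).IsRoot τ → ∃ u ∈ R, v (u : B) = τ := by
    intro i τ hτ
    apply hR
    exact Finset.mem_biUnion.2 ⟨i, Finset.mem_univ _, Multiset.mem_toFinset.2
      ((Polynomial.mem_roots (hPP i).mon.ne_zero).2 hτ)⟩
  -- the integer
  have hq : ∀ τ τ' : Bˣ, ∃ q : ℤ, q ≠ 0 ∧ (τ ≠ τ' → ((τ : B) - τ') ∣ (q : B)) := by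
    intro τ τ'
    by_cases h : τ = τ'
    · exact ⟨1, one_ne_zero, fun h' => absurd h h'⟩
    · obtain ⟨q, hq, hq'⟩ := hnrm B ((τ : B) - τ') (sub_ne_zero.2 fun h' => h (Units.ext h'))
      exact ⟨q, hq, fun _ => hq'⟩
  choose q hq0 hq using hq
  -- the tests
  let T : Type := Fin n × {τ // τ ∈ R}
  let tt : T → TT G B := fun s => ⟨L s.1, nL s.1, (P s.1).rootMultiplicity (v (s.2.1 : B)),
    s.2.1⟩
  let eT : T ≃ Fin (Fintype.card T) := Fintype.equivFin T
  refine ⟨B, iB, iBd, iBf, e, Fintype.card T, fun i => tt (eT.symm i), he, ?_, ?_, ?_,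
    (∏ i, M i) * (∏ p ∈ R ×ˢ R, q p.1 p.2), ?_, ?_⟩
  · intro i
    exact ⟨_, _, _, rfl⟩
  · intro j
    refine ⟨eT (j, ⟨r₀, hr₀⟩), ?_⟩
    simp only [Equiv.symm_apply_apply]
    rfl
  · intro i
    beta_reduce
    generalize eT.symm i = s
    obtain ⟨c, τ⟩ := s
    have iL := hL c
    have iLf : Group.FG (L c) := inferInstance
    have h2 := (hPP c).eq (Units.map v.toMonoidHom τ.1)
    exact hbc (L c) (nL c) _ K B v hv ((SLm e).comp (ρ₀.comp (L c).subtype)) τ.1 _ (by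
      have h3 : (SLm v).comp ((SLm e).comp (ρ₀.comp (L c).subtype)) =
          ρK.comp (L c).subtype := by
        apply MonoidHom.ext
        intro g
        apply Subtype.ext
        ext i j
        exact hve' _
      rw [h3]
      exact h2.ge)
  · refine mul_ne_zero ?_ ?_
    · rw [Finset.prod_ne_zero_iff]
      intro c _
      exact hM c
    · rw [Finset.prod_ne_zero_iff]
      intro p _
      exact hq0 _ _
  · intro k _ _ hM₀ j ρ hir hpass
    rw [Int.cast_mul, Int.cast_prod, Int.cast_prod] at hM₀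
    have hMk : ∀ i, (M i : k) ≠ 0 := by
      intro i
      exact Finset.prod_ne_zero_iff.1 (left_ne_zero_of_mul hM₀) i (Finset.mem_univ _)
    have hqk : ∀ τ ∈ R, ∀ τ' ∈ R, (q τ τ' : k) ≠ 0 := by
      intro τ hτ τ' hτ'
      exact Finset.prod_ne_zero_iff.1 (right_ne_zero_of_mul hM₀) (τ, τ')
        (Finset.mk_mem_product hτ hτ')
    have hdv : ∀ (z : B) (m : ℤ), z ∣ (m : B) → (m : k) ≠ 0 → j z ≠ 0 := by
      rintro z m ⟨z', hz⟩ hm h
      apply hm
      have h2 := congrArg j hz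
      rwa [map_intCast, map_mul, h, zero_mul] at h2
    have hjR : Set.InjOn j ((R.image fun u : Bˣ => (u : B) : Finset B) : Set B) := by
      intro t ht t' ht' h
      obtain ⟨τ, hτ, rfl⟩ := Finset.mem_image.1 (Finset.mem_coe.1 ht)
      obtain ⟨τ', hτ', rfl⟩ := Finset.mem_image.1 (Finset.mem_coe.1 ht')
      by_contra hne
      refine hdv _ _ (hq τ τ' fun h' => hne (by rw [h'])) (hqk τ hτ τ' hτ') ?_
      rw [map_sub, h, sub_self]
    intro i
    have hirc : IrC (L i) ρ := by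
      have h2 := hir (eT (i, ⟨r₀, hr₀⟩))
      simp only [Equiv.symm_apply_apply] at h2
      exact h2
    have hpcc : ∀ c' : G, PConj c' (c i) → tr (ρ c') = tr (ρ (c i)) := by
      intro c' h
      exact fam_conj (h _ ρ)
    obtain ⟨P', hP'⟩ := hP i k ρ hirc hpcc
    obtain ⟨s, hs, hs'⟩ := hpol K k B v j hv (P i) P' (hPP i).mon hP'.mon
      ((hPP i).deg.trans hP'.deg.symm) (IsAlgClosed.splits _)
      (R.image fun u : Bˣ => (u : B)) (by
        intro t ht
        obtain ⟨u, hu, hut⟩ := hroot i t ht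
        exact ⟨u, Finset.mem_image_of_mem _ hu, hut⟩) hjR (by
        intro t ht
        obtain ⟨τ, hτ, rfl⟩ := Finset.mem_image.1 ht
        have h2 := hpass (eT (i, ⟨τ, hτ⟩))
        simp only [Equiv.symm_apply_apply] at h2
        have h3 := hP'.le (Units.map j.toMonoidHom τ) ((P i).rootMultiplicity (v (τ : B)))
        have h4 : 3 * (P i).rootMultiplicity (v (τ : B)) ≤ _ := h2
        have h5 := h4.trans h3
        have h6 : ((Units.map j.toMonoidHom τ : kˣ) : k) = j (τ : B) := rfl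
        rw [h6] at h5
        omega)
    rw [(hPP i).tra] at hs
    rw [hP'.tra] at hs'
    have h2 : s = -((M i : B) * e (tr (ρ₀ (c i)))) := by
      apply hv
      rw [← hs, map_neg, map_mul, map_intCast, hve', ← hρK]
      rfl
    rw [h2, map_neg, map_mul, map_intCast, neg_inj] at hs'
    exact mul_left_cancel₀ (hMk i) hs'

end Pool.Agent.MP_305fdd_al.Reg
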