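import Pool.Agent.Lib.MP_305fdd_al.F8.CG.MainR
import Pool.Agent.Lib.MP_305fdd_al.F8.CG.P_Tmk
import Pool.Agent.Lib.MP_305fdd_al.F8.PT.mlt

/-!
# MP_305fdd_al: integral classes and isomorphisms of profinite completions
-/

set_option autoImplicit false

namespace Pool.Agent.MP_305fdd_al.Reg

open Pool.Agent.F8.BG Pool.Agent.Lib.MP_305fdd_al Pool.Agent.F8 Pool.Agent.F8.CG

/-- The class `c` corresponds to the class `c'`, modulo all `m`. -/
def Cls {G H : Type} [Group G] [Group H] (Φ : NatBij G H) (c : G →* Multiplicative ℤ)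
    (c' : H →* Multiplicative ℤ) : Prop :=
  ∀ (m : ℕ) [NeZero m], Φ.toFun (Multiplicative (ZMod m)) ((redZ m).comp c) = (redZ m).comp c'

theorem int_ext (a b : Multiplicative ℤ) (h : ∀ (m : ℕ) [NeZero m], redZ m a = redZ m b) :
    a = b := by
  obtain ⟨x, rfl⟩ := Multiplicative.ofAdd.surjective a
  obtain ⟨y, rfl⟩ := Multiplicative.ofAdd.surjective b
  have h1 := h ((x - y).natAbs + 1)
  rw [redZ_ofAdd, redZ_ofAdd] at h1
  have h2 : ((x : ℤ) : ZMod ((x - y).natAbs + 1)) = ((y : ℤ) : ZMod ((x - y).natAbs + 1)) :=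
    Multiplicative.ofAdd.injective h1
  have h3 : ((x - y : ℤ) : ZMod ((x - y).natAbs + 1)) = 0 := by
    rw [Int.cast_sub, h2, sub_self]
  have h4 := (ZMod.intCast_zmod_eq_zero_iff_dvd _ _).1 h3
  have h5 : x - y = 0 := Int.eq_zero_of_abs_lt_dvd h4 (by
    rw [Int.abs_eq_natAbs]
    push_cast
    omega)
  rw [sub_eq_zero.1 h5]

/-- reduction from `ℤ / (m k)` to `ℤ / m` -/
def red2 (m k : ℕ) : Multiplicative (ZMod (m * k)) →* Multiplicative (ZMod m) :=
  AddMonoidHom.toMultiplicative (ZMod.castHom (Dvd.intro k rfl) (ZMod m)).toAddMonoidHom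

theorem red2_redZ (m k : ℕ) (z : Multiplicative ℤ) : red2 m k (redZ (m * k) z) = redZ m z := by
  obtain ⟨x, rfl⟩ := Multiplicative.ofAdd.surjective z
  rw [redZ_ofAdd, redZ_ofAdd]
  change Multiplicative.ofAdd (ZMod.castHom (Dvd.intro k rfl) (ZMod m) ((x : ℤ) : ZMod (m * k))) = _
  rw [map_intCast]

theorem red_div (m k : ℕ) (hk : 1 ≤ k) [NeZero m] (x : Multiplicative (ZMod (m * k)))
    (a : Multiplicative ℤ) (h : x ^ k = redZ (m * k) (a ^ k)) : red2 m k x = redZ m a := by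
  have : NeZero k := ⟨by omega⟩
  have : NeZero (m * k) := ⟨mul_ne_zero (NeZero.ne m) (NeZero.ne k)⟩
  obtain ⟨y, rfl⟩ := Multiplicative.ofAdd.surjective x
  obtain ⟨b, rfl⟩ := Multiplicative.ofAdd.surjective a
  obtain ⟨z, rfl⟩ := ZMod.intCast_surjective y
  have h0 : Multiplicative.ofAdd ((z : ℤ) : ZMod (m * k)) =
      redZ (m * k) (Multiplicative.ofAdd z) := rfl
  rw [h0, red2_redZ]
  rw [h0, ← map_pow, ← ofAdd_nsmul, ← ofAdd_nsmul, redZ_ofAdd, redZ_ofAdd] at h
  have h1 := Multiplicative.ofAdd.injective h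
  rw [nsmul_eq_mul, nsmul_eq_mul] at h1
  have h2 : (((k : ℤ) * z - (k : ℤ) * b : ℤ) : ZMod (m * k)) = 0 := by
    rw [Int.cast_sub, h1, sub_self]
  have h3 := (ZMod.intCast_zmod_eq_zero_iff_dvd _ _).1 h2
  have h4 : (m : ℤ) ∣ z - b := by
    obtain ⟨c, hc⟩ := h3
    refine ⟨c, ?_⟩
    have hk0 : (k : ℤ) ≠ 0 := by
      have : (1 : ℤ) ≤ k := by exact_mod_cast hk
      omega
    apply mul_left_cancel₀ hk0
    rw [mul_sub, hc]
    push_cast
    ring
  rw [redZ_ofAdd, redZ_ofAdd]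
  congr 1
  rw [← sub_eq_zero, ← Int.cast_sub]
  exact (ZMod.intCast_zmod_eq_zero_iff_dvd _ _).2 h4

section

variable {G H : Type} [Group G] [Group H] (Φ : NatBij G H)

/-- If the `s`-th powers of the values are integral, the class is integral. -/
theorem root (c : G →* Multiplicative ℤ) (s : ℕ) (hs : 1 ≤ s) (κ : H → Multiplicative ℤ)
    (h : ∀ (m : ℕ) [NeZero m] (l : H),
      (Φ.toFun (Multiplicative (ZMod m)) ((redZ m).comp c) l) ^ s = redZ m (κ l)) :
    ∃ c', Cls Φ c c' := by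
  have hs0 : NeZero s := ⟨by omega⟩
  have hdiv : ∀ l, ∃ a : Multiplicative ℤ, κ l = a ^ s := by
    intro l
    have h1 := h s l
    obtain ⟨y, hy⟩ := Multiplicative.ofAdd.surjective (Φ.toFun (Multiplicative (ZMod s)) ((redZ s).comp c) l)
    rw [← hy, ← ofAdd_nsmul, nsmul_eq_mul, CharP.cast_eq_zero, zero_mul] at h1
    obtain ⟨x, hx⟩ := Multiplicative.ofAdd.surjective (κ l)
    rw [← hx, redZ_ofAdd] at h1
    have h2 : ((x : ℤ) : ZMod s) = 0 := (Multiplicative.ofAdd.injective h1).symm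
    obtain ⟨b, hb⟩ := (ZMod.intCast_zmod_eq_zero_iff_dvd x s).1 h2
    refine ⟨Multiplicative.ofAdd b, ?_⟩
    rw [← hx, hb, ← ofAdd_nsmul, nsmul_eq_mul]
  choose a ha using hdiv
  have hval : ∀ (m : ℕ) [NeZero m] (l : H),
      Φ.toFun (Multiplicative (ZMod m)) ((redZ m).comp c) l = redZ m (a l) := by
    intro m _ l
    have hmk : NeZero (m * s) := ⟨mul_ne_zero (NeZero.ne m) (NeZero.ne s)⟩
    have h2 := h (m * s) l
    rw [ha] at h2
    have h3 := red_div m s hs _ _ h2
    rw [← h3]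
    have h4 := Φ.nat (red2 m s) ((redZ (m * s)).comp c)
    have h5 : (red2 m s).comp ((redZ (m * s)).comp c) = (redZ m).comp c := by
      ext x
      exact red2_redZ m s _
    rw [h5] at h4
    rw [h4]
    rfl
  refine ⟨MonoidHom.mk' a ?_, ?_⟩
  · intro l l'
    refine int_ext _ _ ?_
    intro m _
    rw [map_mul, ← hval m, ← hval m, ← hval m, map_mul]
  · intro m _
    ext l
    exact hval m l

theorem cls_one : Cls Φ 1 1 := by
  intro m _
  rw [MonoidHom.comp_one, MonoidHom.comp_one, Φ.one]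

variable {Φ}

theorem cls_mul {c d : G →* Multiplicative ℤ} {c' d' : H →* Multiplicative ℤ} (h : Cls Φ c c')
    (h' : Cls Φ d d') : Cls Φ (c * d) (c' * d') := by
  intro m _
  have h1 : (redZ m).comp (c * d) = (redZ m).comp c * (redZ m).comp d := by
    ext x
    exact map_mul (redZ m) _ _
  have h2 : (redZ m).comp (c' * d') = (redZ m).comp c' * (redZ m).comp d' := by
    ext x
    exact map_mul (redZ m) _ _
  rw [h1, h2, p_mlt G H Φ, h m, h' m]

theorem cls_inv {c : G →* Multiplicative ℤ} {c' : H →* Multiplicative ℤ} (h : Cls Φ c c') :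
    Cls Φ c⁻¹ c'⁻¹ := by
  intro m _
  have h1 : (redZ m).comp c⁻¹ = ((redZ m).comp c)⁻¹ := by
    ext x
    exact map_inv (redZ m) _
  have h2 : (redZ m).comp c'⁻¹ = ((redZ m).comp c')⁻¹ := by
    ext x
    exact map_inv (redZ m) _
  have h3 := p_mlt G H Φ (Multiplicative (ZMod m)) ((redZ m).comp c)⁻¹ ((redZ m).comp c)
  rw [inv_mul_cancel, Φ.one, h m] at h3
  rw [h1, h2]
  exact eq_inv_of_mul_eq_one_left h3.symm

/-- the integral classes form a subgroup -/
def integral (Φ : NatBij G H) : Subgroup (G →* Multiplicative ℤ) where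
  carrier := {c | ∃ c', Cls Φ c c'}
  one_mem' := ⟨1, cls_one Φ⟩
  mul_mem' := fun ⟨_, h⟩ ⟨_, h'⟩ => ⟨_, cls_mul h h'⟩
  inv_mem' := fun ⟨_, h⟩ => ⟨_, cls_inv h⟩

theorem mem_integral (c : G →* Multiplicative ℤ) : c ∈ integral Φ ↔ ∃ c', Cls Φ c c' := Iff.rfl

/-- roots of integral classes are integral -/
theorem integral_root (c : G →* Multiplicative ℤ) (j : ℤ) (hj : j ≠ 0) (h : c ^ j ∈ integral Φ) :
    c ∈ integral Φ := by
  have h1 : c ^ j.natAbs ∈ integral Φ := by
    rcases Int.natAbs_eq j with h2 | h2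
    · rw [h2, zpow_natCast] at h
      exact h
    · rw [h2, zpow_neg, zpow_natCast] at h
      exact inv_mem_iff.1 h
  obtain ⟨d, hd⟩ := h1
  refine root Φ c j.natAbs (by omega) (fun l => d l) ?_
  intro m _ l
  have h2 := hd m
  have h3 : (redZ m).comp (c ^ j.natAbs) =
      (powMonoidHom j.natAbs : Multiplicative (ZMod m) →* _).comp ((redZ m).comp c) := by
    ext x
    exact map_pow (redZ m) _ _
  rw [h3, Φ.nat] at h2
  exact DFunLike.congr_fun h2 l

/-- integrality on a subgroup of finite index -/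
theorem integral_sub (c : G →* Multiplicative ℤ) (D : Subgroup G) (L : Subgroup H)
    (hL : L.FiniteIndex) (Ψ : NatBij D L)
    (hΨ : ∀ (R : Type) [Group R] [Finite R] (θ : G →* R),
      Ψ.toFun R (θ.comp D.subtype) = (Φ.toFun R θ).comp L.subtype)
    (h : c.comp D.subtype ∈ integral Ψ) : c ∈ integral Φ := by
  obtain ⟨d, hd⟩ := h
  have hp : ∀ l : H, l ^ (L.index).factorial ∈ L := fun l =>
    L.pow_mem_of_index_ne_zero_of_dvd hL.index_ne_zero l
      (fun m h1 h2 => Nat.dvd_factorial h1 h2)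
  refine root Φ c (L.index).factorial (Nat.succ_le_of_lt (Nat.factorial_pos _))
    (fun l => d ⟨_, hp l⟩) ?_
  intro m _ l
  have h1 := hd m
  have h2 := hΨ (Multiplicative (ZMod m)) ((redZ m).comp c)
  have h3 : ((redZ m).comp c).comp D.subtype = (redZ m).comp (c.comp D.subtype) := rfl
  rw [h3, h1] at h2
  have h4 := DFunLike.congr_fun h2 ⟨_, hp l⟩
  rw [← map_pow]
  exact h4.symm

end

/-- `c` is, on a subgroup of finite index, a multiple of the projection to `ℤ` of a subgroup of finite index of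
`F ⋊ ℤ`, the generator of `ℤ` acts by an automorphism `α` with `Pos α w`, and the word of some letter begins with
this letter. -/
def PosCls {G : Type} [Group G] (c : G →* Multiplicative ℤ) : Prop :=
  ∃ (D : Subgroup G) (ι : Type) (_ : Finite ι) (α : MulAut (FreeGroup ι)) (w : ι → List ι) (i₀ : ι)
    (e : D →* GR α) (k : ℤ), D.FiniteIndex ∧ Pos α w ∧ (w i₀).head? = some i₀ ∧
    Function.Injective e ∧ e.range.FiniteIndex ∧ ∀ x : D, c x = (nR α (e x)) ^ k

theorem integral_pos {G H : Type} [Group G] [Group H] [Group.FG H] (Φ : NatBij G H)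
    (c : G →* Multiplicative ℤ) (hc : PosCls c) : c ∈ integral Φ := by
  obtain ⟨D, ι, _, α, w, i₀, e, k, hD, hpos, hhd, he, her, hk⟩ := hc
  obtain ⟨L, hL, Ψ, hΨ⟩ := Tmk_sub Φ D hD
  have hfg : Group.FG L := Subgroup.fg_of_index_ne_zero L
  refine integral_sub c D L hL Ψ hΨ ?_
  let ε : e.range ≃* D := (MonoidHom.ofInjective he).symm
  obtain ⟨n, hn⟩ := m_rm2 ι α w i₀ hpos hhd e.range her L (natBij_equiv ε Ψ)
  have h1 : (nR α).comp e ∈ integral Ψ := by
    refine ⟨n, ?_⟩
    intro m _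
    rw [← hn m]
    show _ = Ψ.toFun _ (((redZ m).comp (nD e.range)).comp ε.symm.toMonoidHom)
    congr 1
  have h2 : c.comp D.subtype = ((nR α).comp e) ^ k := by
    ext x
    exact hk x
  rw [h2]
  exact zpow_mem h1 k

theorem integral_closure {G H : Type} [Group G] [Group H] [Group.FG H] (Φ : NatBij G H)
    (c : G →* Multiplicative ℤ) (j : ℤ) (hj : j ≠ 0)
    (hc : c ^ j ∈ Subgroup.closure {d : G →* Multiplicative ℤ | PosCls d}) : c ∈ integral Φ := by
  refine integral_root c j hj ?_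
  have h : Subgroup.closure {d : G →* Multiplicative ℤ | PosCls d} ≤ integral Φ := by
    rw [Subgroup.closure_le]
    intro d hd
    exact integral_pos Φ d hd
  exact h hc

end Pool.Agent.MP_305fdd_al.Reg
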