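import Pool.Agent.Lib.MP_305fdd_al.Reg.Tr

/-!
# MP_305fdd_al: the transferred representations are irreducible on commutator subgroups
-/

set_option autoImplicit false

namespace Pool.Agent.MP_305fdd_al.Reg

open Pool.Agent.MP_305fdd_al Pool.Agent.Lib.MP_305fdd_al Pool.Agent.F8 Pool.Agent.F8.CG

theorem irr_transfer {D L : Type} [Group D] [Group L] (Ψ : NatBij D L) {A : Type} [CommRing A]
    [IsDomain A] [Module.Free ℤ A] [Module.Finite ℤ A] (ρ₀ : D →* SL2 A) (T : L → A)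
    (hT : Red Ψ ρ₀ T) (hirr : ∀ U : Subgroup D, U.FiniteIndex → IrC U ρ₀) (V : Subgroup L)
    (hV : V.FiniteIndex) : ∃ g ∈ ⁅V, V⁆, ∃ h ∈ ⁅V, V⁆, T (g * h * g⁻¹ * h⁻¹) ≠ 2 := by
  obtain ⟨U, hU, Ξ, hΞ⟩ := Tmk_sub Ψ.symm V hV
  obtain ⟨g, hg, h, hh, hne⟩ := hirr U hU
  obtain ⟨m, hm, hm2⟩ : ∃ m : ℕ, m ≠ 0 ∧
      Ideal.Quotient.mk (Ideal.span {(m : A)}) (tr (ρ₀ (g * h * g⁻¹ * h⁻¹))) ≠
        Ideal.Quotient.mk (Ideal.span {(m : A)}) 2 := by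
    by_contra hcon
    push Not at hcon
    exact hne (fam_eq _ _ fun m hm => hcon m hm)
  have hc : CharZero A := g_char A
  have hfin : Finite (A ⧸ Ideal.span {(m : A)}) := by
    apply Ideal.finiteQuotientOfFreeOfNeBot
    rw [Ne, Ideal.span_singleton_eq_bot]
    exact_mod_cast hm
  let q : A →+* A ⧸ Ideal.span {(m : A)} := Ideal.Quotient.mk (Ideal.span {(m : A)})
  let σ : D →* SL2 (A ⧸ Ideal.span {(m : A)}) := (SLm q).comp ρ₀
  let σ' : L →* SL2 (A ⧸ Ideal.span {(m : A)}) := Ψ.toFun _ σ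
  have h1 : Ξ.toFun _ (σ'.comp V.subtype) = σ.comp U.subtype := by
    rw [hΞ]
    congr 1
    exact Ψ.left_inv _ σ
  have h2 : (σ.comp U.subtype).range = (σ'.comp V.subtype).range := by
    rw [← h1]
    exact Ξ.range_eq _
  have h3 : U.map σ = V.map σ' := by
    rw [MonoidHom.range_comp, MonoidHom.range_comp, Subgroup.range_subtype,
      Subgroup.range_subtype] at h2
    exact h2
  have h4 : ⁅U, U⁆.map σ = ⁅V, V⁆.map σ' := by
    rw [Subgroup.map_commutator, Subgroup.map_commutator, h3]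
  obtain ⟨g', hg', hgg⟩ : σ g ∈ ⁅V, V⁆.map σ' := h4 ▸ Subgroup.mem_map_of_mem σ hg
  obtain ⟨h', hh', hhh⟩ : σ h ∈ ⁅V, V⁆.map σ' := h4 ▸ Subgroup.mem_map_of_mem σ hh
  refine ⟨g', hg', h', hh', fun h5 => hm2 ?_⟩
  have h6 := hT _ q (g' * h' * g'⁻¹ * h'⁻¹)
  have h7 : Ψ.toFun _ ((SLm q).comp ρ₀) (g' * h' * g'⁻¹ * h'⁻¹) = σ (g * h * g⁻¹ * h⁻¹) := by
    show σ' (g' * h' * g'⁻¹ * h'⁻¹) = _
    rw [map_mul, map_mul, map_mul, map_inv, map_inv, hgg, hhh, map_mul, map_mul, map_mul, map_inv,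
      map_inv]
  rw [h7, h5] at h6
  have h8 : tr (σ (g * h * g⁻¹ * h⁻¹)) = q (tr (ρ₀ (g * h * g⁻¹ * h⁻¹))) := tr_map q _
  rw [h8] at h6
  exact h6.symm

end Pool.Agent.MP_305fdd_al.Reg
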