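import Mathlib

/-!
# Hyperbolic matrices of determinant one and trace greater than two are conjugate, over the
integers, to products of the two elementary matrices in which both occur
-/

namespace Pool.Agent.MP_305fdd_al.Reg

/-- A nonnegative integral matrix of determinant one is a product of the two elementary
matrices. -/
theorem nonneg_word (n : ℕ) : ∀ a b c d : ℤ, 0 ≤ a → 0 ≤ b → 0 ≤ c → 0 ≤ d → a * d - b * c = 1 →
    a + b + c + d ≤ n → ∃ l : List Bool, (0 < b → true ∈ l) ∧ (0 < c → false ∈ l) ∧
      (!![a, b; c, d] : Matrix (Fin 2) (Fin 2) ℤ) =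
        (l.map fun s => if s then (!![1, 1; 0, 1] : Matrix (Fin 2) (Fin 2) ℤ)
          else !![1, 0; 1, 1]).prod := by
  induction n with
  | zero =>
    intro a b c d ha hb hc hd hdet hn
    exfalso
    have h1 : a = 0 := by push_cast at hn; omega
    have h2 : b = 0 := by push_cast at hn; omega
    rw [h1, h2] at hdet
    simp at hdet
  | succ n ih =>
    intro a b c d ha hb hc hd hdet hn
    push_cast at hn
    by_cases h1 : c ≤ a ∧ d ≤ b
    · obtain ⟨h1, h2⟩ := h1
      have h3 : 0 < c + d := by
        by_contra hcon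
        have hc0 : c = 0 := by omega
        have hd0 : d = 0 := by omega
        rw [hc0, hd0] at hdet
        simp at hdet
      obtain ⟨l, hl1, hl2, hl3⟩ := ih (a - c) (b - d) c d (by omega) (by omega) hc hd
        (by linear_combination hdet) (by omega)
      refine ⟨true :: l, fun _ => by simp, fun h => List.mem_cons_of_mem _ (hl2 h), ?_⟩
      rw [List.map_cons, List.prod_cons, ← hl3]
      simp
    · by_cases h2 : a ≤ c ∧ b ≤ d
      · obtain ⟨h2, h3⟩ := h2
        have h4 : 0 < a + b := by
          by_contra hcon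
          have hc0 : a = 0 := by omega
          have hd0 : b = 0 := by omega
          rw [hc0, hd0] at hdet
          simp at hdet
        obtain ⟨l, hl1, hl2, hl3⟩ := ih a b (c - a) (d - b) ha hb (by omega) (by omega)
          (by linear_combination hdet) (by omega)
        refine ⟨false :: l, fun h => List.mem_cons_of_mem _ (hl1 h), fun _ => by simp, ?_⟩
        rw [List.map_cons, List.prod_cons, ← hl3]
        simp
      · -- then the matrix is the identity
        have h3 : c < a ∧ b < d := by
          by_contra hcon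
          have h4 : a < c ∧ d < b := by omega
          nlinarith [mul_nonneg (show 0 ≤ c - 1 - a by omega) hd,
            mul_nonneg (show 0 ≤ b - 1 - d by omega) hc,
            mul_nonneg (show 0 ≤ c - 1 - a by omega) (show 0 ≤ b - 1 - d by omega)]
        obtain ⟨h3, h4⟩ := h3
        have h5 : b + c = 0 := by
          nlinarith [mul_nonneg (show 0 ≤ a - 1 - c by omega) (show 0 ≤ d - 1 - b by omega),
            mul_nonneg (show 0 ≤ a - 1 - c by omega) hb,
            mul_nonneg (show 0 ≤ d - 1 - b by omega) hc]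
        have hb0 : b = 0 := by omega
        have hc0 : c = 0 := by omega
        rw [hb0, hc0] at hdet
        have h6 : a * d = 1 := by linear_combination hdet
        have h7 : a = 1 := by
          rcases Int.eq_one_or_neg_one_of_mul_eq_one h6 with h | h <;> omega
        have h8 : d = 1 := by rw [h7] at h6; omega
        refine ⟨[], fun h => by omega, fun h => by omega, ?_⟩
        rw [h7, hb0, hc0, h8]
        simp [Matrix.one_fin_two]

/-- The matrix `A` is conjugate over the integers to a matrix with nonnegative diagonal entries,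
positive other entries and determinant one. -/
def ConjPos (A : Matrix (Fin 2) (Fin 2) ℤ) : Prop :=
  ∃ (X Y : Matrix (Fin 2) (Fin 2) ℤ) (a b c d : ℤ), X * Y = 1 ∧ 0 ≤ a ∧ 0 < b ∧ 0 < c ∧ 0 ≤ d ∧
    a * d - b * c = 1 ∧ X * A = !![a, b; c, d] * X

theorem ConjPos.conj {A B T S : Matrix (Fin 2) (Fin 2) ℤ} (hTS : T * S = 1)
    (h : T * A = B * T) (hB : ConjPos B) : ConjPos A := by
  obtain ⟨X, Y, a, b, c, d, h1, ha, hb, hc, hd, hdet, h2⟩ := hB
  refine ⟨X * T, S * Y, a, b, c, d, ?_, ha, hb, hc, hd, hdet, ?_⟩
  · rw [mul_assoc, ← mul_assoc T, hTS, one_mul, h1]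
  · rw [mul_assoc, h, ← mul_assoc, h2, mul_assoc]

theorem conjU {a b c d : ℤ} (n : ℤ)
    (h : ConjPos !![a + n * c, b + n * (d - a) - n * n * c; c, d - n * c]) :
    ConjPos !![a, b; c, d] := by
  refine ConjPos.conj (T := !![1, n; 0, 1]) (S := !![1, -n; 0, 1]) ?_ ?_ h
  · simp [Matrix.one_fin_two]
  · rw [Matrix.mul_fin_two, Matrix.mul_fin_two]
    congr 1
    ext i j
    fin_cases i <;> fin_cases j <;> simp <;> ring

theorem conjV {a b c d : ℤ} (n : ℤ)
    (h : ConjPos !![a - n * b, b; c + n * (a - d) - n * n * b, d + n * b]) :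
    ConjPos !![a, b; c, d] := by
  refine ConjPos.conj (T := !![1, 0; n, 1]) (S := !![1, 0; -n, 1]) ?_ ?_ h
  · simp [Matrix.one_fin_two]
  · rw [Matrix.mul_fin_two, Matrix.mul_fin_two]
    congr 1
    ext i j
    fin_cases i <;> fin_cases j <;> simp <;> ring

/-- The case in which the product of the two other entries is nonnegative. -/
theorem conj_base {a b c d : ℤ} (hdet : a * d - b * c = 1) (ht : 2 < a + d)
    (hbc : 0 ≤ b * c) : ConjPos !![a, b; c, d] := by
  rcases hbc.eq_or_lt with h0 | h0
  · exfalso
    have h6 : a * d = 1 := by linear_combination hdet - h0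
    rcases Int.eq_one_or_neg_one_of_mul_eq_one h6 with h | h
    · rw [h] at h6; omega
    · rw [h] at h6; omega
  · have had : 0 < a * d := by linarith
    have hpos : 0 < a ∧ 0 < d := by
      rcases (mul_pos_iff.mp had) with h | h
      · exact h
      · omega
    rcases (mul_pos_iff.mp h0) with h | h
    · exact ⟨1, 1, a, b, c, d, one_mul 1, hpos.1.le, h.1, h.2, hpos.2.le, hdet, by
        rw [one_mul, mul_one]⟩
    · refine ⟨!![1, 0; 0, -1], !![1, 0; 0, -1], a, -b, -c, d, ?_, hpos.1.le, by omega, by omega,
        hpos.2.le, by linear_combination hdet, ?_⟩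
      · simp [Matrix.one_fin_two]
      · simp

/-- The size of the diagonal difference. -/
theorem two_mul_lt {a b c d : ℤ} (hdet : a * d - b * c = 1) (ht : 2 < a + d)
    (hbc : b * c < 0) (hcb : |c| ≤ |b|) : |2 * c| < |d - a| := by
  rw [← sq_lt_sq]
  have h1 : |b| * |c| = -(b * c) := by rw [← abs_mul, abs_of_neg hbc]
  have h2 : |c| * |c| = c * c := abs_mul_abs_self c
  have h3 : |c| * |c| ≤ |b| * |c| := mul_le_mul_of_nonneg_right hcb (abs_nonneg c)
  have h4 : 9 ≤ (a + d) ^ 2 := by nlinarith
  have h5 : (d - a) ^ 2 = (a + d) ^ 2 - 4 - 4 * (b * c) := by linear_combination (-4) * hdet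
  rw [h5]
  nlinarith

/-- The step that makes an entry smaller. -/
theorem step {a b c d : ℤ} (hdet : a * d - b * c = 1) (ht : 2 < a + d)
    (hbc : b * c < 0) (hcb : |c| ≤ |b|) :
    ∃ n : ℤ, n * n = 1 ∧ (0 ≤ (b + n * (d - a) - c) * c ∨ |b + n * (d - a) - c| < |b|) := by
  have key := two_mul_lt hdet ht hbc hcb
  rcases mul_neg_iff.mp hbc with ⟨hb, hc⟩ | ⟨hb, hc⟩
  · -- `b > 0`, `c < 0`
    have h2 : |2 * c| = -(2 * c) := abs_of_neg (by omega)
    rcases le_total 0 (d - a) with h | h
    · rw [abs_of_nonneg h, h2] at key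
      refine ⟨-1, by norm_num, ?_⟩
      rcases le_or_gt (b + -1 * (d - a) - c) 0 with h3 | h3
      · exact Or.inl (mul_nonneg_of_nonpos_of_nonpos h3 hc.le)
      · right
        rw [abs_of_pos h3, abs_of_pos hb]
        omega
    · rw [abs_of_nonpos h, h2] at key
      refine ⟨1, by norm_num, ?_⟩
      rcases le_or_gt (b + 1 * (d - a) - c) 0 with h3 | h3
      · exact Or.inl (mul_nonneg_of_nonpos_of_nonpos h3 hc.le)
      · right
        rw [abs_of_pos h3, abs_of_pos hb]
        omega
  · -- `b < 0`, `c > 0`
    have h2 : |2 * c| = 2 * c := abs_of_pos (by omega)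
    rcases le_total 0 (d - a) with h | h
    · rw [abs_of_nonneg h, h2] at key
      refine ⟨1, by norm_num, ?_⟩
      rcases lt_or_ge (b + 1 * (d - a) - c) 0 with h3 | h3
      · right
        rw [abs_of_neg h3, abs_of_neg hb]
        omega
      · exact Or.inl (mul_nonneg h3 hc.le)
    · rw [abs_of_nonpos h, h2] at key
      refine ⟨-1, by norm_num, ?_⟩
      rcases lt_or_ge (b + -1 * (d - a) - c) 0 with h3 | h3
      · right
        rw [abs_of_neg h3, abs_of_neg hb]
        omega
      · exact Or.inl (mul_nonneg h3 hc.le)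

theorem conj_main (n : ℕ) : ∀ a b c d : ℤ, a * d - b * c = 1 → 2 < a + d →
    |b| + |c| < n → ConjPos !![a, b; c, d] := by
  induction n with
  | zero =>
    intro a b c d _ _ hn
    exfalso
    have h1 := abs_nonneg b
    have h2 := abs_nonneg c
    push_cast at hn
    linarith
  | succ n ih =>
    intro a b c d hdet ht hn
    push_cast at hn
    by_cases h0 : 0 ≤ b * c
    · exact conj_base hdet ht h0
    · push Not at h0
      rcases le_total |c| |b| with hcb | hcb
      · obtain ⟨k, hk, h⟩ := step hdet ht h0 hcb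
        have hdet' : (a + k * c) * (d - k * c) - (b + k * (d - a) - k * k * c) * c = 1 := by
          linear_combination hdet
        have ht' : 2 < (a + k * c) + (d - k * c) := by linarith
        have hb' : b + k * (d - a) - k * k * c = b + k * (d - a) - c := by rw [hk, one_mul]
        refine conjU k ?_
        rcases h with h | h
        · exact conj_base hdet' ht' (by rw [hb']; exact h)
        · exact ih _ _ _ _ hdet' ht' (by rw [hb']; linarith)
      · obtain ⟨k, hk, h⟩ := step (a := d) (b := c) (c := b) (d := a)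
          (by linear_combination hdet) (by linarith) (by rw [mul_comm]; exact h0) hcb
        have hdet' : (a - k * b) * (d + k * b) - b * (c + k * (a - d) - k * k * b) = 1 := by
          linear_combination hdet
        have ht' : 2 < (a - k * b) + (d + k * b) := by linarith
        have hb' : c + k * (a - d) - k * k * b = c + k * (a - d) - b := by rw [hk, one_mul]
        refine conjV k ?_
        rcases h with h | h
        · exact conj_base hdet' ht' (by rw [hb', mul_comm]; exact h)
        · exact ih _ _ _ _ hdet' ht' (by rw [hb']; linarith)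

theorem pos_conj (A : Matrix (Fin 2) (Fin 2) ℤ) (hd : A.det = 1) (ht : 2 < A.trace) :
    ∃ (X Y : Matrix (Fin 2) (Fin 2) ℤ) (l : List Bool), X * Y = 1 ∧ true ∈ l ∧ false ∈ l ∧
      X * A = (l.map fun s => if s then (!![1, 1; 0, 1] : Matrix (Fin 2) (Fin 2) ℤ)
        else !![1, 0; 1, 1]).prod * X := by
  have h1 : A 0 0 * A 1 1 - A 0 1 * A 1 0 = 1 := by rw [← hd, Matrix.det_fin_two]
  have h2 : 2 < A 0 0 + A 1 1 := by rw [← Matrix.trace_fin_two]; exact ht
  have h3 : |A 0 1| + |A 1 0| < (((|A 0 1| + |A 1 0|).toNat + 1 : ℕ) : ℤ) := by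
    have := abs_nonneg (A 0 1)
    have := abs_nonneg (A 1 0)
    omega
  obtain ⟨X, Y, a, b, c, d, h4, ha, hb, hc, hd', hdet, h5⟩ :=
    conj_main _ (A 0 0) (A 0 1) (A 1 0) (A 1 1) h1 h2 h3
  rw [← Matrix.eta_fin_two A] at h5
  obtain ⟨l, hl1, hl2, hl3⟩ := nonneg_word (a + b + c + d).toNat a b c d ha hb.le hc.le hd' hdet
    (by omega)
  exact ⟨X, Y, l, h4, hl1 hb, hl2 hc, by rw [← hl3]; exact h5⟩

end Pool.Agent.MP_305fdd_al.Reg
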