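import Pool.Agent.Lib.MP_305fdd_al.Reg.Irr

/-!
# MP_305fdd_al: the transferred representations have the same trace ring
-/

set_option autoImplicit false

namespace Pool.Agent.MP_305fdd_al.Reg

open Pool.Agent.MP_305fdd_al Pool.Agent.Lib.MP_305fdd_al Pool.Agent.F8 Pool.Agent.F8.CG

/-- a divisible element of a finitely generated abelian group is zero -/
theorem div_zero {Q : Type} [AddCommGroup Q] [Module.Finite ℤ Q] (y : Q)
    (h : ∀ m : ℤ, m ≠ 0 → ∃ b : Q, y = m • b) : y = 0 := by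
  have key : ∀ k : ℤ, k ≠ 0 → ∃ s : ℤ, (k * s) • y = y := by
    intro k hk
    have h1 : y ∈ (⨅ i : ℕ, (Ideal.span {k}) ^ i • (⊤ : Submodule ℤ Q)) := by
      rw [Submodule.mem_iInf]
      intro i
      obtain ⟨b, hb⟩ := h (k ^ i) (pow_ne_zero _ hk)
      rw [hb]
      exact Submodule.smul_mem_smul (Ideal.pow_mem_pow (Ideal.mem_span_singleton_self k) i)
        trivial
    rw [Ideal.mem_iInf_smul_pow_eq_bot_iff] at h1
    obtain ⟨⟨r, hr⟩, h2⟩ := h1
    obtain ⟨s, rfl⟩ := Ideal.mem_span_singleton.1 hr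
    exact ⟨s, h2⟩
  obtain ⟨s, hs⟩ := key 2 two_ne_zero
  have hk : (1 - 2 * s : ℤ) ≠ 0 := by omega
  have h3 : (1 - 2 * s : ℤ) • y = 0 := by rw [sub_smul, one_smul, hs, sub_self]
  obtain ⟨t, ht⟩ := key _ hk
  rw [← ht, mul_comm, mul_smul, h3, smul_zero]

/-- sets with the same reductions generate the same ring -/
theorem closure_le_of {A : Type} [CommRing A] [IsDomain A] [Module.Free ℤ A] [Module.Finite ℤ A]
    (X Y : Set A) (h : ∀ (S : Type) [CommRing S] [Finite S] (h : A →+* S), h '' X ⊆ h '' Y) :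
    Subring.closure X ≤ Subring.closure Y := by
  rw [Subring.closure_le]
  intro x hx
  let R : Submodule ℤ A := AddSubgroup.toIntSubmodule (Subring.closure Y).toAddSubgroup
  have h1 : (Submodule.Quotient.mk x : A ⧸ R) = 0 := by
    apply div_zero
    intro m hm
    have hc : CharZero A := g_char A
    have hfin : Finite (A ⧸ Ideal.span {(m : A)}) := by
      apply Ideal.finiteQuotientOfFreeOfNeBot
      rw [Ne, Ideal.span_singleton_eq_bot]
      exact_mod_cast hm
    obtain ⟨y, hy, hxy⟩ := h _ (Ideal.Quotient.mk (Ideal.span {(m : A)})) ⟨x, hx, rfl⟩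
    have h2 : x - y ∈ Ideal.span {(m : A)} := Ideal.Quotient.eq.1 hxy.symm
    obtain ⟨a, ha⟩ := Ideal.mem_span_singleton.1 h2
    refine ⟨Submodule.Quotient.mk a, ?_⟩
    rw [← Submodule.Quotient.mk_smul, Submodule.Quotient.eq]
    have h3 : x - m • a = y := by
      rw [zsmul_eq_mul, ← ha]
      ring
    rw [h3]
    exact Subring.subset_closure hy
  exact (Submodule.Quotient.mk_eq_zero R).1 h1

theorem ring_eq {D L : Type} [Group D] [Group L] (Ψ : NatBij D L) {A : Type} [CommRing A]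
    [IsDomain A] [Module.Free ℤ A] [Module.Finite ℤ A] (ρ₀ : D →* SL2 A) (T : L → A)
    (hT : Red Ψ ρ₀ T) :
    Subring.closure (Set.range T) = Subring.closure (Set.range fun d => tr (ρ₀ d)) := by
  have key : ∀ (S : Type) [CommRing S] [Finite S] (h : A →+* S),
      h '' Set.range T = h '' (Set.range fun d => tr (ρ₀ d)) := by
    intro S _ _ h
    have h2 := Ψ.range_eq ((SLm h).comp ρ₀)
    ext s
    constructor
    · rintro ⟨_, ⟨l, rfl⟩, rfl⟩
      obtain ⟨d, hd⟩ : Ψ.toFun _ ((SLm h).comp ρ₀) l ∈ ((SLm h).comp ρ₀).range := h2 ▸ ⟨l, rfl⟩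
      refine ⟨_, ⟨d, rfl⟩, ?_⟩
      rw [hT S h l, ← hd]
      exact (tr_map h _).symm
    · rintro ⟨_, ⟨d, rfl⟩, rfl⟩
      obtain ⟨l, hl⟩ : ((SLm h).comp ρ₀) d ∈ (Ψ.toFun _ ((SLm h).comp ρ₀)).range :=
        h2.symm ▸ ⟨d, rfl⟩
      refine ⟨_, ⟨l, rfl⟩, ?_⟩
      rw [hT S h l, hl]
      exact tr_map h _
  exact le_antisymm (closure_le_of _ _ fun S _ _ h => (key S h).le)
    (closure_le_of _ _ fun S _ _ h => (key S h).ge)

end Pool.Agent.MP_305fdd_al.Reg
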