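import Pool.Agent.Lib.MP_305fdd_al.Reg.DefsC
import Pool.Agent.Lib.MP_305fdd_al.Reg.DefsT
import Pool.Agent.Lib.MP_305fdd_al.Reg.Down
import Pool.Agent.Lib.MP_305fdd_al.Reg.Bun
import Pool.Agent.Lib.MP_305fdd_al.Reg.PosConj
import Pool.Agent.Lib.MP_305fdd_al.Reg.Irr
import Pool.Agent.Lib.MP_305fdd_al.Reg.Ring
import Pool.Agent.Lib.MP_305fdd_al.Reg.Clo
import Pool.Agent.Lib.MP_305fdd_al.LF.P.C2

/-!
# MP_305fdd_al: the regularity theorem
-/

set_option autoImplicit false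

namespace Pool.Agent.MP_305fdd_al.Reg

open Pool.Agent.MP_305fdd_al Pool.Agent.Lib.MP_305fdd_al
open Pool.Agent.F2X (AM)

/-! ### Comparison of the definitions -/

variable {G H : Type} [Group G] [Group H]

/-- the natural bijection -/
def ProIso.nb (Φ : ProIso G H) : NatBij G H where
  toFun Q _ _ := Φ.equiv Q
  invFun Q _ _ := (Φ.equiv Q).symm
  left_inv Q _ _ θ := (Φ.equiv Q).symm_apply_apply θ
  right_inv Q _ _ θ := (Φ.equiv Q).apply_symm_apply θ
  nat {Q R} _ _ _ _ f θ := Φ.natural Q R f θ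

/-- the isomorphism of profinite completions -/
def ofNb (Ψ : NatBij G H) : ProIso G H where
  equiv Q _ _ := ⟨Ψ.toFun Q, Ψ.invFun Q, Ψ.left_inv Q, Ψ.right_inv Q⟩
  natural _ _ _ _ _ _ f θ := Ψ.nat f θ

theorem turn_iff {ι : Type} (w : ι → List ι) (b a : ι) : Turn w b a ↔ F8.BG.Turn w b a := by
  constructor
  · intro h
    induction h with
    | base i b a h => exact F8.BG.Turn.base i b a h
    | step b a b' a' h hb ha ih => exact F8.BG.Turn.step b a b' a' ih hb ha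
  · intro h
    induction h with
    | base i b a h => exact Turn.base i b a h
    | step b a b' a' h hb ha ih => exact Turn.step b a b' a' ih hb ha

theorem positive_iff {ι : Type} (α : MulAut (FreeGroup ι)) (w : ι → List ι) :
    Positive α w ↔ F8.BG.Pos α w ∧ ∃ i, (w i).head? = some i := by
  constructor
  · rintro ⟨h1, h2, h3, h4⟩
    refine ⟨⟨h1, h2, ?_⟩, h4⟩
    simpa only [turn_iff] using h3
  · rintro ⟨⟨h1, h2, h3⟩, h4⟩
    refine ⟨h1, h2, ?_, h4⟩
    simpa only [turn_iff] using h3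

/-- the class of the library, from a positive fibration -/
theorem pos_cls (c : G →* Multiplicative ℤ) (D : Subgroup G) (p : D →* Multiplicative ℤ) (k : ℤ)
    (h1 : D.FiniteIndex) (hp : PositiveFibration p) (h6 : ∀ x : D, c x = p x ^ k) : PosCls c := by
  obtain ⟨ι, α, w, e, h2, h3, h4, h5, h9⟩ := hp
  obtain ⟨h7, i, h8⟩ := (positive_iff α w).1 h3
  exact ⟨D, ι, h2, α, w, i, e, k, h1, h7, h8, h4, h5, fun x => by rw [h6, h9]; rfl⟩

theorem abMat_eq (β : MulAut (FreeGroup (Fin 2))) : abMat β = (AM β).val := by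
  have h : ∀ (w : FreeGroup (Fin 2)) (i : Fin 2),
      Multiplicative.toAdd (expSum i w) = F2X.vec w i := by
    intro w i
    let g : FreeGroup (Fin 2) →* Multiplicative ℤ :=
      (AddMonoidHom.toMultiplicative (Pi.evalAddMonoidHom (fun _ : Fin 2 => ℤ) i)).comp F2X.abh
    have h1 : expSum i = g := by
      ext k
      show Multiplicative.toAdd (expSum i (FreeGroup.of k)) = F2X.vec (FreeGroup.of k) i
      rw [F2X.vec_of, Pi.single_apply]
      unfold expSum
      rw [FreeGroup.lift_apply_of]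
      show (if k = i then (1 : ℤ) else 0) = _
      simp only [eq_comm]
    exact congrArg Multiplicative.toAdd (DFunLike.congr_fun h1 w)
  ext i j
  exact h _ _

/-! ### The parts of the theorem -/

/-- surjectivity -/
theorem cls_surj (Φ : NatBij G H) {c : G →* Multiplicative ℤ} {c' : H →* Multiplicative ℤ}
    (h : Cls Φ c c') (hc : Function.Surjective c) : Function.Surjective c' := by
  let S : AddSubgroup ℤ :=
    { carrier := {x | ∃ l, c' l = Multiplicative.ofAdd x}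
      zero_mem' := ⟨1, map_one c'⟩
      add_mem' := by
        rintro x y ⟨l, hl⟩ ⟨l', hl'⟩
        exact ⟨l * l', by rw [map_mul, hl, hl']; rfl⟩
      neg_mem' := by
        rintro x ⟨l, hl⟩
        exact ⟨l⁻¹, by rw [map_inv, hl]; rfl⟩ }
  obtain ⟨s, hs⟩ := Int.subgroup_cyclic S
  have key : ∀ m : ℕ, m ≠ 0 → (m : ℤ) ∣ s → m = 1 := by
    intro m hm hms
    have hm0 : NeZero m := ⟨hm⟩
    have h1 : (F8.redZ m).comp c' = 1 := by
      ext l
      have h2 : Multiplicative.toAdd (c' l) ∈ S := ⟨l, rfl⟩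
      rw [hs] at h2
      obtain ⟨k, hk⟩ := AddSubgroup.mem_closure_singleton.1 h2
      have h3 : (m : ℤ) ∣ Multiplicative.toAdd (c' l) := by
        rw [← hk]
        exact dvd_mul_of_dvd_right hms k
      exact (ZMod.intCast_zmod_eq_zero_iff_dvd _ _).2 h3
    have h4 := h m
    rw [h1] at h4
    have h5 : (F8.redZ m).comp c = 1 := by
      apply Φ.injective
      rw [h4, Φ.one]
    obtain ⟨g, hg⟩ := hc (Multiplicative.ofAdd 1)
    have h6 := DFunLike.congr_fun h5 g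
    rw [MonoidHom.comp_apply, hg, F8.redZ_ofAdd] at h6
    have h7 : ((1 : ℤ) : ZMod m) = 0 := Multiplicative.ofAdd.injective h6
    have h8 := (ZMod.intCast_zmod_eq_zero_iff_dvd _ _).1 h7
    exact Nat.dvd_one.1 (by exact_mod_cast h8)
  have hs1 : s.natAbs = 1 := by
    by_cases h0 : s = 0
    · exfalso
      have := key 2 (by norm_num) (by rw [h0]; exact dvd_zero _)
      omega
    · exact key s.natAbs (by omega) (Int.natAbs_dvd_self)
  intro y
  obtain ⟨x, rfl⟩ := Multiplicative.ofAdd.surjective y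
  have hx : x ∈ S := by
    rw [hs, AddSubgroup.mem_closure_singleton]
    rcases Int.natAbs_eq s with h1 | h1
    · rw [hs1] at h1
      exact ⟨x, by rw [h1]; simp⟩
    · rw [hs1] at h1
      exact ⟨-x, by rw [h1]; simp⟩
  exact hx

/-- the positive fibration on a subgroup of finite index of the group of a bundle -/
theorem bundle_pos (β : MulAut (FreeGroup (Fin 2))) (h : 2 < (abMat β ^ 2).trace) :
    ∃ (D : Subgroup (FZ β)) (p : D →* Multiplicative ℤ) (k : ℤ), D.FiniteIndex ∧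
      PositiveFibration p ∧ ∀ x : D, pr β x = p x ^ k := by
  rw [abMat_eq] at h
  obtain ⟨D, ι, h2, α, w, i, e, k, h1, h7, h8, h4, h5, h6⟩ := bundle pos_conj β h
  exact ⟨D, (pr α).comp e, k, h1,
    ⟨ι, α, w, e, h2, (positive_iff α w).2 ⟨h7, i, h8⟩, h4, h5, fun x => rfl⟩, h6⟩

/-- every fibration is virtually a multiple of a positive one -/
theorem virt_pos (D : Subgroup G) (p : D →* Multiplicative ℤ) (hD : D.FiniteIndex)
    (hp : Fibration p) : ∃ (D' : Subgroup G) (hle : D' ≤ D) (p' : D' →* Multiplicative ℤ) (k : ℤ),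
      D'.FiniteIndex ∧ PositiveFibration p' ∧ ∀ x : D', p (Subgroup.inclusion hle x) = p' x ^ k := by
  rcases hp with hp | ⟨β, e, hβ, he, hr, hpe⟩
  · exact ⟨D, le_rfl, p, 1, hD, hp, fun x => by rw [zpow_one]; rfl⟩
  · obtain ⟨D₂, p₂, k, hD₂, ⟨ι, α, w, e₂, hι, hw, he₂, hr₂, hpe₂⟩, hk⟩ := bundle_pos β hβ
    obtain ⟨D', e', hle, hD', he', hr', hx⟩ := down D hD e he hr D₂ hD₂ e₂ he₂ hr₂
    refine ⟨D', hle, (pr α).comp e', k, hD', ⟨ι, α, w, e', hι, hw, he', hr', fun x => rfl⟩, ?_⟩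
    intro x
    obtain ⟨h, h₂, h3⟩ := hx x
    rw [MonoidHom.comp_apply, h3, ← hpe₂, ← hk, hpe]
    rfl

theorem fibre_cls (c : G →* Multiplicative ℤ) (hc : FibreClass c) : PosCls c := by
  obtain ⟨D, p, k, hD, hp, hk⟩ := hc
  obtain ⟨D', hle, p', j, hD', hp', hj⟩ := virt_pos D p hD hp
  refine pos_cls c D' p' (j * k) hD' hp' (fun x => ?_)
  have h1 := hk (Subgroup.inclusion hle x)
  rw [Subgroup.coe_inclusion] at h1
  rw [h1, hj, zpow_mul]

theorem class_transfer [Group.FG H] (Φ : ProIso G H) (c : G →* Multiplicative ℤ) (j : ℤ)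
    (hj : j ≠ 0) (hc : c ^ j ∈ Subgroup.closure {d : G →* Multiplicative ℤ | FibreClass d}) :
    ∃ c' : H →* Multiplicative ℤ, Φ.Matches c c' ∧
      (Function.Surjective c → Function.Surjective c' ∧ Φ.SameImages c.ker c'.ker) := by
  have hc1 : c ^ j ∈ Subgroup.closure {d : G →* Multiplicative ℤ | PosCls d} :=
    Subgroup.closure_mono (fun d hd => fibre_cls d hd) hc
  obtain ⟨c', hcc⟩ := integral_closure Φ.nb c j hj hc1
  refine ⟨c', fun m _ => hcc m, fun hs => ?_⟩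
  have hs' := cls_surj Φ.nb hcc hs
  have hM : LF.Mt Φ.nb c c' := by
    intro m _ x hx
    show Φ.nb.toFun (Multiplicative (ZMod m)) ((F8.redZ m).comp c) x = 1
    rw [hcc m, MonoidHom.comp_apply, MonoidHom.mem_ker.1 hx, map_one]
  have hm := LF.p_C2 G H Φ.nb c c' hs hs' hM
  exact ⟨hs', fun Q _ _ θ => hm Q θ⟩

theorem rep_transfer_pos [Group.FG H] (Φ : ProIso G H) (D : Subgroup G)
    (p : D →* Multiplicative ℤ) (hD : D.FiniteIndex) (hp : PositiveFibration p) :
    ∃ (L : Subgroup H) (Ψ : ProIso D L), L.FiniteIndex ∧ Φ.Restricts Ψ ∧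
      ∀ (A : Type) [CommRing A] [IsDomain A] [Module.Free ℤ A] [Module.Finite ℤ A]
        (ρ₀ : D →* Matrix.SpecialLinearGroup (Fin 2) A), Irr (chr ρ₀) → Ψ.Transfers ρ₀ := by
  obtain ⟨ι, α, w, e, hι, hw, he, hr, -⟩ := hp
  obtain ⟨hpos, i₀, h0⟩ := (positive_iff α w).1 hw
  obtain ⟨L, hL, Ψ, hΨ⟩ := F8.CG.Tmk_sub Φ.nb D hD
  have hfg : Group.FG L := Subgroup.fg_of_index_ne_zero L
  refine ⟨L, ofNb Ψ, hL, fun Q _ _ θ => hΨ Q θ, ?_⟩
  intro A _ _ _ _ ρ₀ hirr
  obtain ⟨i, ρ, T, h1, h2⟩ := rep hpos h0 D e he hr ρ₀ hirr L Ψ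
  exact ⟨T, fun V hV => irr_transfer Ψ ρ₀ T h2 hirr V hV, ring_eq Ψ ρ₀ T h2,
    fun k _ _ i' => all_fields Ψ ρ₀ T h2 i ρ h1 k i', h2⟩

theorem rep_transfer [Group.FG H] (Φ : ProIso G H) (D₁ : Subgroup G)
    (p : D₁ →* Multiplicative ℤ) (hD : D₁.FiniteIndex) (hp : Fibration p) :
    ∃ D₀ : Subgroup G, D₀.FiniteIndex ∧ ∀ D ≤ D₀, D.FiniteIndex →
      ∃ (L : Subgroup H) (Ψ : ProIso D L), L.FiniteIndex ∧ Φ.Restricts Ψ ∧
        ∀ (A : Type) [CommRing A] [IsDomain A] [Module.Free ℤ A] [Module.Finite ℤ A]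
          (ρ₀ : D →* Matrix.SpecialLinearGroup (Fin 2) A), Irr (chr ρ₀) → Ψ.Transfers ρ₀ := by
  obtain ⟨D₀, -, p', -, hD₀, ⟨ι, α, w, e, hι, hw, he, hr, hpe⟩, -⟩ := virt_pos D₁ p hD hp
  refine ⟨D₀, hD₀, fun D hle hDf => ?_⟩
  refine rep_transfer_pos Φ D (p'.comp (Subgroup.inclusion hle)) hDf
    ⟨ι, α, w, e.comp (Subgroup.inclusion hle), hι, hw, ?_, ?_, fun x => hpe _⟩
  · exact he.comp (Subgroup.inclusion_injective hle)
  · rw [MonoidHom.range_comp]
    have h1 : (Subgroup.inclusion hle).range = D.subgroupOf D₀ := Subgroup.inclusion_range hle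
    rw [h1]
    have h2 : (D.subgroupOf D₀).FiniteIndex := inferInstance
    exact fin_map e _ h2 hr

end Pool.Agent.MP_305fdd_al.Reg
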