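import Pool.Agent.Lib.MP_305fdd_al.Reg.GTH

/-!
# MP_305fdd_al: transfer of representations in `SL₂(A)`, `A` an order of a number field
-/

set_option autoImplicit false

namespace Pool.Agent.MP_305fdd_al.Reg

open Pool.Agent.F8.BG Pool.Agent.MP_305fdd_al Pool.Agent.Lib.MP_305fdd_al Pool.Agent.F8
open Pool.Agent.F8.CG Pool.Agent.F8.NG.T

theorem transfer {G Λ A B : Type} [Group G] [Group Λ] [Group.FG Λ] [CommRing A] [IsDomain A]
    [Module.Free ℤ A] [Module.Finite ℤ A] [CommRing B] [IsDomain B] [Module.Free ℤ B]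
    [Module.Finite ℤ B] (Φ : NatBij G Λ) (ρ₀ : G →* SL2 A) (e : A →+* B) (N : ℕ)
    (t : Fin N → Tst G B) (hTH : TH ρ₀ e t) (hM : ∀ n, Nonempty (MT Φ (t n))) :
    ∃ (i : A →+* AlgebraicClosure ℚ) (s : Λ →* SL2 (AlgebraicClosure ℚ)) (T : Λ → A),
      (∀ l, tr (s l) = i (T l)) ∧ Red Φ ρ₀ T := by
  have M := fun n => (hM n).some
  obtain ⟨j, s, hs⟩ := m_Tq G Λ A B Φ ρ₀ e N t hTH M
  have hr : ∀ (p : ℕ) (hp : Fact p.Prime), ∃ r : Λ →* SL2 (AT ℤ_[p] A), RL Φ ρ₀ p r :=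
    fun p hp => p_rL p_lim G Λ Φ A ρ₀ p
  choose r hr using hr
  have hT := m_Tval G Λ A B Φ ρ₀ e N t hTH M j s hs r hr
  choose T hT using hT
  refine ⟨j.comp e, s, T, fun l => (hT l).1, ?_⟩
  intro S _ _ h l
  exact p_red G Λ Φ A ρ₀ r hr l (T l) (hT l).2 S h

theorem rep_sub {ι : Type} [Finite ι] {α : MulAut (FreeGroup ι)} {w : ι → List ι} {i₀ : ι}
    (hp : Pos α w) (h0 : (w i₀).head? = some i₀) (D : Subgroup (GR α)) (hD : D.FiniteIndex)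
    {A : Type} [CommRing A] [IsDomain A] [Module.Free ℤ A] [Module.Finite ℤ A] (ρ₀ : D →* SL2 A)
    (hirr : ∀ L : Subgroup D, L.FiniteIndex → IrC L ρ₀) (Λ : Type) [Group Λ] [Group.FG Λ]
    (Φ : NatBij D Λ) :
    ∃ (i : A →+* AlgebraicClosure ℚ) (s : Λ →* SL2 (AlgebraicClosure ℚ))
      (T : Λ → A), (∀ l, tr (s l) = i (T l)) ∧ Red Φ ρ₀ T := by
  have hfg : Group.FG D := by
    have h1 : Group.FG (GR α) := con_fg α
    exact Subgroup.fg_of_index_ne_zero D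
  obtain ⟨B, _, _, _, _, e, N, t, hTH, ht⟩ := g_TH (nD D) ρ₀ hirr
    (g_thF α w i₀ hp h0 D hD ρ₀ hirr)
  obtain ⟨n', hn'⟩ := m_rm2 ι α w i₀ hp h0 D hD Λ Φ
  refine transfer Φ ρ₀ e N t hTH fun i => ?_
  obtain ⟨L, hL, k, nL, m, u, d, hk, hx, hti⟩ := ht i
  rw [hti]
  exact m_Tmk D Λ B Φ (nD D) n' (fun M _ => hn' M) L hL k hk nL hx m u d

theorem rep {ι : Type} [Finite ι] {α : MulAut (FreeGroup ι)} {w : ι → List ι} {i₀ : ι}
    (hp : Pos α w) (h0 : (w i₀).head? = some i₀) (G : Type) [Group G] (e : G →* GR α)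
    (he : Function.Injective e) (hD : e.range.FiniteIndex)
    {A : Type} [CommRing A] [IsDomain A] [Module.Free ℤ A] [Module.Finite ℤ A] (ρ₀ : G →* SL2 A)
    (hirr : ∀ L : Subgroup G, L.FiniteIndex → IrC L ρ₀) (Λ : Type) [Group Λ] [Group.FG Λ]
    (Φ : NatBij G Λ) :
    ∃ (i : A →+* AlgebraicClosure ℚ) (s : Λ →* SL2 (AlgebraicClosure ℚ))
      (T : Λ → A), (∀ l, tr (s l) = i (T l)) ∧ Red Φ ρ₀ T := by
  let ε : e.range ≃* G := (MonoidHom.ofInjective he).symm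
  have hirr' : ∀ L : Subgroup e.range, L.FiniteIndex → IrC L (ρ₀.comp ε.toMonoidHom) := by
    intro L hL
    have h1 : (L.map ε.toMonoidHom).FiniteIndex := by
      refine ⟨?_⟩
      rw [show (L.map ε.toMonoidHom).index = L.index from
        Subgroup.index_map_equiv L ε]
      exact hL.index_ne_zero
    obtain ⟨g, hg, h, hh, htr⟩ := hirr _ h1
    rw [← Subgroup.map_commutator] at hg hh
    obtain ⟨g', hg', rfl⟩ := hg
    obtain ⟨h', hh', rfl⟩ := hh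
    refine ⟨g', hg', h', hh', ?_⟩
    have h5 : (ρ₀.comp ε.toMonoidHom) (g' * h' * g'⁻¹ * h'⁻¹) = ρ₀ (ε.toMonoidHom g' *
        ε.toMonoidHom h' * (ε.toMonoidHom g')⁻¹ * (ε.toMonoidHom h')⁻¹) := by
      rw [MonoidHom.comp_apply]
      congr 1
      rw [map_mul, map_mul, map_mul, map_inv, map_inv]
    rw [h5]
    exact htr
  obtain ⟨i, s, T, h1, h2⟩ := rep_sub hp h0 e.range hD (ρ₀.comp ε.toMonoidHom) hirr' Λ
    (natBij_equiv ε Φ)
  refine ⟨i, s, T, h1, ?_⟩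
  intro S _ _ h l
  rw [h2 S h l]
  congr 1
  show Φ.toFun _ (((SLm h).comp (ρ₀.comp ε.toMonoidHom)).comp ε.symm.toMonoidHom) l = _
  congr 2
  ext x : 1
  show SLm h (ρ₀ (ε (ε.symm x))) = SLm h (ρ₀ x)
  rw [MulEquiv.apply_symm_apply]

end Pool.Agent.MP_305fdd_al.Reg
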