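import Pool.Agent.Lib.MP_305fdd_al.Reg.Int
import Pool.Agent.Lib.MP_305fdd_al.LF.P.E3

/-!
# MP_305fdd_al: positive automorphisms of the free group of rank two
-/

set_option autoImplicit false

namespace Pool.Agent.MP_305fdd_al.Reg

open Pool.Agent.F8.BG Pool.Agent.Lib.MP_305fdd_al Pool.Agent.F8 Pool.Agent.F8.CG
open Pool.Agent.F2X (ga gb lf mkA mkA_apply lf_ga lf_gb AM aT vec amat AM_val AM_aT)

/-- `a ↦ a b`, `b ↦ b` -/
def aV : MulAut (FreeGroup (Fin 2)) :=
  mkA (ga * gb) gb (ga * gb⁻¹) gb (by simp) (by simp) (by simp) (by simp)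

theorem aV_ga : aV ga = ga * gb := by
  unfold aV
  rw [mkA_apply, lf_ga]

theorem aV_gb : aV gb = gb := by
  unfold aV
  rw [mkA_apply, lf_gb]

theorem AM_aV : (AM aV).val = !![1, 0; 1, 1] := by
  rw [AM_val, Pool.Agent.F2X.amat_eq]
  show !![vec (aV ga) 0, vec (aV gb) 0; vec (aV ga) 1, vec (aV gb) 1] = _
  rw [aV_ga, aV_gb]
  simp

/-- the words of the two automorphisms -/
def bw (s : Bool) (i : Fin 2) : List (Fin 2) :=
  if s then (if i = 0 then [0] else [0, 1]) else (if i = 0 then [0, 1] else [1])

/-- the words of the products -/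
def wl : List Bool → Fin 2 → List (Fin 2)
  | [], i => [i]
  | s :: l, i => (wl l i).flatMap (bw s)

/-- the two automorphisms -/
def ab (s : Bool) : MulAut (FreeGroup (Fin 2)) := if s then aT else aV

/-- the products -/
def au (l : List Bool) : MulAut (FreeGroup (Fin 2)) := (l.map ab).prod

theorem pw_flatMap {ι : Type} (α : MulAut (FreeGroup ι)) (w : ι → List ι)
    (h : ∀ i, α (FreeGroup.of i) = BG.pw (w i)) (l : List ι) : α (BG.pw l) = BG.pw (l.flatMap w) := by
  induction l with
  | nil => simp
  | cons i l ih => rw [pw_cons, map_mul, h, ih, List.flatMap_cons, pw_append]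

theorem ab_eq (s : Bool) (i : Fin 2) : ab s (FreeGroup.of i) = BG.pw (bw s i) := by
  cases s
  · fin_cases i
    · show aV ga = _
      rw [aV_ga]; simp [bw, BG.pw]
    · show aV gb = _
      rw [aV_gb]; simp [bw, BG.pw]
  · fin_cases i
    · show aT ga = _
      rw [Pool.Agent.F2X.aT_ga]; simp [bw, BG.pw]
    · show aT gb = _
      rw [Pool.Agent.F2X.aT_gb]; simp [bw, BG.pw]

theorem au_eq (l : List Bool) (i : Fin 2) : au l (FreeGroup.of i) = BG.pw (wl l i) := by
  induction l with
  | nil => simp [au, wl, BG.pw]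
  | cons s l ih =>
    have h : au (s :: l) = ab s * au l := by
      unfold au
      rw [List.map_cons, List.prod_cons]
    rw [h, MulAut.mul_apply, ih, pw_flatMap (ab s) (bw s) (ab_eq s)]
    rfl

theorem AM_au (l : List Bool) : (AM (au l)).val = (l.map fun s =>
    if s then (!![1, 1; 0, 1] : Matrix (Fin 2) (Fin 2) ℤ) else !![1, 0; 1, 1]).prod := by
  induction l with
  | nil =>
    show (AM 1).val = _
    rw [map_one]; rfl
  | cons s l ih =>
    have h : au (s :: l) = ab s * au l := by
      unfold au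
      rw [List.map_cons, List.prod_cons]
    rw [h, map_mul, List.map_cons, List.prod_cons, ← ih]
    show (AM (ab s)).val * (AM (au l)).val = _
    congr 1
    cases s
    · exact AM_aV
    · exact AM_aT

/-! ### First and last letters -/

theorem bw_head0 (s : Bool) : ∃ r, bw s 0 = 0 :: r := by
  cases s
  · exact ⟨[1], rfl⟩
  · exact ⟨[], rfl⟩

theorem bw_last1 (s : Bool) : ∃ r, bw s 1 = r ++ [1] := by
  cases s
  · exact ⟨[], rfl⟩
  · exact ⟨[0], rfl⟩

theorem bwt_head (i : Fin 2) : ∃ r, bw true i = 0 :: r := by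
  fin_cases i
  · exact ⟨[], rfl⟩
  · exact ⟨[1], rfl⟩

theorem bwf_last (i : Fin 2) : ∃ r, bw false i = r ++ [1] := by
  fin_cases i
  · exact ⟨[0], rfl⟩
  · exact ⟨[], rfl⟩

theorem wl_head (l : List Bool) : ∃ r, wl l 0 = 0 :: r := by
  induction l with
  | nil => exact ⟨[], rfl⟩
  | cons s l ih =>
    obtain ⟨r, hr⟩ := ih
    obtain ⟨r', hr'⟩ := bw_head0 s
    refine ⟨r' ++ r.flatMap (bw s), ?_⟩
    rw [wl, hr, List.flatMap_cons, hr']
    rfl

theorem wl_last (l : List Bool) : ∃ r, wl l 1 = r ++ [1] := by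
  induction l with
  | nil => exact ⟨[], rfl⟩
  | cons s l ih =>
    obtain ⟨r, hr⟩ := ih
    obtain ⟨r', hr'⟩ := bw_last1 s
    refine ⟨r.flatMap (bw s) ++ r', ?_⟩
    rw [wl, hr, List.flatMap_append, List.flatMap_cons, List.flatMap_nil, hr', List.append_nil,
      List.append_assoc]

theorem wl_last0 (l : List Bool) (h : false ∈ l) : ∃ r, wl l 0 = r ++ [1] := by
  induction l with
  | nil => exact absurd h List.not_mem_nil
  | cons s l ih =>
    rcases List.mem_cons.1 h with h | h
    · subst h
      obtain ⟨r, hr⟩ := wl_head l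
      rw [wl]
      rcases List.eq_nil_or_concat (wl l 0) with h1 | ⟨r1, c, h1⟩
      · rw [hr] at h1
        exact absurd h1 (List.cons_ne_nil _ _)
      · obtain ⟨r', hr'⟩ := bwf_last c
        refine ⟨r1.flatMap (bw false) ++ r', ?_⟩
        rw [h1, List.concat_eq_append, List.flatMap_append, List.flatMap_cons, List.flatMap_nil,
          hr', List.append_nil, List.append_assoc]
    · obtain ⟨r, hr⟩ := ih h
      obtain ⟨r', hr'⟩ := bw_last1 s
      refine ⟨r.flatMap (bw s) ++ r', ?_⟩
      rw [wl, hr, List.flatMap_append, List.flatMap_cons, List.flatMap_nil, hr', List.append_nil,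
        List.append_assoc]

theorem wl_head1 (l : List Bool) (h : true ∈ l) : ∃ r, wl l 1 = 0 :: r := by
  induction l with
  | nil => exact absurd h List.not_mem_nil
  | cons s l ih =>
    rcases List.mem_cons.1 h with h | h
    · subst h
      obtain ⟨r, hr⟩ := wl_last l
      rw [wl]
      rcases hl : wl l 1 with _ | ⟨c, r1⟩
      · rw [hl] at hr
        exact absurd hr.symm (by simp)
      · obtain ⟨r', hr'⟩ := bwt_head c
        refine ⟨r' ++ r1.flatMap (bw true), ?_⟩
        rw [List.flatMap_cons, hr']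
        rfl
    · obtain ⟨r, hr⟩ := ih h
      obtain ⟨r', hr'⟩ := bw_head0 s
      refine ⟨r' ++ r.flatMap (bw s), ?_⟩
      rw [wl, hr, List.flatMap_cons, hr']
      rfl

theorem infix01 (L : List (Fin 2)) : ∀ r r' : List (Fin 2), L = 0 :: r → L = r' ++ [1] →
    [0, 1] <:+: L := by
  induction L with
  | nil => intro r r' h _; exact absurd h.symm (List.cons_ne_nil _ _)
  | cons c L ih =>
    intro r r' h h'
    obtain ⟨rfl, rfl⟩ := List.cons_eq_cons.1 h
    rcases r' with _ | ⟨d, r'⟩
    · exfalso
      rw [List.nil_append] at h'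
      exact absurd (List.cons_eq_cons.1 h').1 (by decide)
    · rw [List.cons_append] at h'
      obtain ⟨h1, h2⟩ := List.cons_eq_cons.1 h'
      rcases hL : L with _ | ⟨f, L'⟩
      · rw [hL] at h2
        exact absurd h2.symm (by simp)
      · have hf : f = 0 ∨ f = 1 := by fin_cases f <;> simp
        rcases hf with hf | hf
        · subst hf
          rw [← hL]
          exact List.infix_cons (ih L' r' hL h2)
        · subst hf
          exact ⟨[], L', by simp⟩

/-- the automorphisms `au l` are positive -/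
theorem pos_au (l : List Bool) (ht : true ∈ l) (hf : false ∈ l) : Pos (au l) (wl l) := by
  obtain ⟨r0, hr0⟩ := wl_head l
  obtain ⟨s0, hs0⟩ := wl_last0 l hf
  obtain ⟨r1, hr1⟩ := wl_head1 l ht
  obtain ⟨s1, hs1⟩ := wl_last l
  have t01 : Turn (wl l) 0 1 := Turn.base 0 0 1 (infix01 _ r0 s0 hr0 hs0)
  have t10 : Turn (wl l) 1 0 := Turn.step 0 1 1 0 t01 (by rw [hs0]; simp) (by rw [hr1]; simp)
  have tt : Turn (wl l) 0 0 ∨ Turn (wl l) 1 1 := by
    rcases l with _ | ⟨s, l⟩
    · exact absurd ht List.not_mem_nil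
    · cases s
      · right
        have ht' : true ∈ l := by
          rcases List.mem_cons.1 ht with h | h
          · exact absurd h (by decide)
          · exact h
        obtain ⟨r, hr⟩ := wl_head1 l ht'
        obtain ⟨q, hq⟩ := wl_last l
        have hq0 : q ≠ [] := by
          rintro rfl
          rw [hr] at hq
          exact absurd (List.cons_eq_cons.1 hq).1 (by decide)
        rcases List.eq_nil_or_concat q with h1 | ⟨q1, c, h1⟩
        · exact absurd h1 hq0
        · obtain ⟨r', hr'⟩ := bwf_last c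
          refine Turn.base 1 1 1 ⟨q1.flatMap (bw false) ++ r', [], ?_⟩
          rw [wl, hq, h1, List.concat_eq_append, List.flatMap_append, List.flatMap_append,
            List.flatMap_cons, List.flatMap_cons, List.flatMap_nil, hr']
          simp [bw]
      · left
        have hf' : false ∈ l := by
          rcases List.mem_cons.1 hf with h | h
          · exact absurd h (by decide)
          · exact h
        obtain ⟨r, hr⟩ := wl_head l
        obtain ⟨q, hq⟩ := wl_last0 l hf'
        rcases r with _ | ⟨c, r⟩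
        · exfalso
          rw [hq] at hr
          rcases q with _ | ⟨d, q⟩
          · rw [List.nil_append] at hr
            exact absurd (List.cons_eq_cons.1 hr).1 (by decide)
          · rw [List.cons_append] at hr
            exact absurd (List.cons_eq_cons.1 hr).2 (by simp)
        · obtain ⟨r', hr'⟩ := bwt_head c
          refine Turn.base 0 0 0 ⟨[], r' ++ r.flatMap (bw true), ?_⟩
          rw [wl, hr, List.flatMap_cons, List.flatMap_cons, hr']
          simp [bw]
  have m01 : (1 : Fin 2) ∈ wl l 0 := by rw [hs0]; simp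
  have m10 : (0 : Fin 2) ∈ wl l 1 := by rw [hr1]; simp
  refine ⟨au_eq l, ?_, ?_⟩
  · intro i j
    fin_cases i <;> fin_cases j
    · exact Relation.ReflTransGen.refl
    · exact Relation.ReflTransGen.single m01
    · exact Relation.ReflTransGen.single m10
    · exact Relation.ReflTransGen.refl
  · have key : ∀ x : Fin 2 ⊕ Fin 2, Relation.EqvGen
        (fun x y => ∃ b a, x = Sum.inl b ∧ y = Sum.inr a ∧ Turn (wl l) b a) (Sum.inl 0) x := by
      have e01 : Relation.EqvGen (fun x y : Fin 2 ⊕ Fin 2 =>
          ∃ b a, x = Sum.inl b ∧ y = Sum.inr a ∧ Turn (wl l) b a) (Sum.inl 0) (Sum.inr 1) :=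
        Relation.EqvGen.rel _ _ ⟨0, 1, rfl, rfl, t01⟩
      have e10 : Relation.EqvGen (fun x y : Fin 2 ⊕ Fin 2 =>
          ∃ b a, x = Sum.inl b ∧ y = Sum.inr a ∧ Turn (wl l) b a) (Sum.inl 1) (Sum.inr 0) :=
        Relation.EqvGen.rel _ _ ⟨1, 0, rfl, rfl, t10⟩
      rcases tt with tt | tt
      · have e00 : Relation.EqvGen (fun x y : Fin 2 ⊕ Fin 2 =>
            ∃ b a, x = Sum.inl b ∧ y = Sum.inr a ∧ Turn (wl l) b a) (Sum.inl 0) (Sum.inr 0) :=
          Relation.EqvGen.rel _ _ ⟨0, 0, rfl, rfl, tt⟩
        rintro (x | x) <;> fin_cases x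
        · exact Relation.EqvGen.refl _
        · exact Relation.EqvGen.trans _ _ _ e00 (Relation.EqvGen.symm _ _ e10)
        · exact e00
        · exact e01
      · have e11 : Relation.EqvGen (fun x y : Fin 2 ⊕ Fin 2 =>
            ∃ b a, x = Sum.inl b ∧ y = Sum.inr a ∧ Turn (wl l) b a) (Sum.inl 1) (Sum.inr 1) :=
          Relation.EqvGen.rel _ _ ⟨1, 1, rfl, rfl, tt⟩
        have e0 := Relation.EqvGen.trans _ _ _ e01 (Relation.EqvGen.symm _ _ e11)
        rintro (x | x) <;> fin_cases x
        · exact Relation.EqvGen.refl _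
        · exact e0
        · exact Relation.EqvGen.trans _ _ _ e0 e10
        · exact e01
    intro x y
    exact Relation.EqvGen.trans _ _ _ (Relation.EqvGen.symm _ _ (key x)) (key y)

end Pool.Agent.MP_305fdd_al.Reg
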